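import Mathlib

set_option autoImplicit false

namespace Pool.Agent.H232R2

open Submodule

/-- perturbation of signs -/
lemma exists_eps {ι : Type*} [Finite ι] (f g : ι → ℝ) :
    ∃ ε : ℝ, 0 < ε ∧ ∀ i, SignType.sign (f i + ε * g i) =
      if f i = 0 then SignType.sign (g i) else SignType.sign (f i) := by
  have h : ∀ i, ∀ᶠ ε in nhdsWithin (0 : ℝ) (Set.Ioi 0), SignType.sign (f i + ε * g i) =
      if f i = 0 then SignType.sign (g i) else SignType.sign (f i) := by
    intro i
    by_cases hf : f i = 0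
    · simp only [hf, if_true, zero_add]
      filter_upwards [self_mem_nhdsWithin] with ε hε
      have hε' : 0 < ε := hε
      rw [sign_mul, sign_pos hε', one_mul]
    · simp only [hf, if_false]
      have hc : Filter.Tendsto (fun ε : ℝ => f i + ε * g i) (nhdsWithin 0 (Set.Ioi 0))
          (nhds (f i)) := by
        have : Continuous (fun ε : ℝ => f i + ε * g i) := by fun_prop
        have h2 := this.tendsto 0
        simp only [zero_mul, add_zero] at h2
        exact h2.mono_left nhdsWithin_le_nhds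
      rcases lt_or_gt_of_ne hf with hneg | hpos
      · filter_upwards [hc.eventually (gt_mem_nhds hneg)] with ε hε
        rw [sign_neg hε, sign_neg hneg]
      · filter_upwards [hc.eventually (lt_mem_nhds hpos)] with ε hε
        rw [sign_pos hε, sign_pos hpos]
  have h2 := (Filter.eventually_all.2 h).and self_mem_nhdsWithin
  obtain ⟨ε, h3, h4⟩ := h2.exists
  exact ⟨ε, h4, h3⟩

variable {m : ℕ}

/-- prescribing the values on a linearly independent family -/
lemma exists_values {κ : Type*} (c : κ → Fin m → ℝ) (hc : LinearIndependent ℝ c) (t : κ → ℝ) :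
    ∃ u : Fin m → ℝ, ∀ k, dotProduct (c k) u = t k := by
  classical
  set f : span ℝ (Set.range c) →ₗ[ℝ] ℝ := (Module.Basis.span hc).constr ℝ t with hf
  obtain ⟨g, hg⟩ := LinearMap.exists_extend f
  refine ⟨(dotProductEquiv ℝ (Fin m)).symm g, fun k => ?_⟩
  rw [dotProduct_comm]
  have h1 : dotProduct ((dotProductEquiv ℝ (Fin m)).symm g) (c k) =
      (dotProductEquiv ℝ (Fin m)) ((dotProductEquiv ℝ (Fin m)).symm g) (c k) := rfl
  rw [h1, LinearEquiv.apply_symm_apply]
  have hk : c k = ((Module.Basis.span hc k : span ℝ (Set.range c)) : Fin m → ℝ) := by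
    rw [Module.Basis.span_apply]
  have h2 : g ((Module.Basis.span hc k : span ℝ (Set.range c)) : Fin m → ℝ) = f (Module.Basis.span hc k) := by
    rw [← hg]; rfl
  rw [hk, h2, hf, Module.Basis.constr_basis]

lemma exists_ann (p : Submodule ℝ (Fin m → ℝ)) (v : Fin m → ℝ) (hv : v ∉ p) :
    ∃ u : Fin m → ℝ, (∀ z ∈ p, dotProduct z u = 0) ∧ dotProduct v u = 1 := by
  classical
  obtain ⟨f, hfv, hpf⟩ := Submodule.exists_le_ker_of_notMem hv
  refine ⟨(f v)⁻¹ • (dotProductEquiv ℝ (Fin m)).symm f, ?_, ?_⟩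
  · intro z hz
    rw [dotProduct_comm, smul_dotProduct]
    have h1 : dotProduct ((dotProductEquiv ℝ (Fin m)).symm f) z =
      (dotProductEquiv ℝ (Fin m)) ((dotProductEquiv ℝ (Fin m)).symm f) z := rfl
    rw [h1, LinearEquiv.apply_symm_apply, show f z = 0 from hpf hz, smul_zero]
  · rw [dotProduct_comm, smul_dotProduct]
    have h1 : dotProduct ((dotProductEquiv ℝ (Fin m)).symm f) v =
      (dotProductEquiv ℝ (Fin m)) ((dotProductEquiv ℝ (Fin m)).symm f) v := rfl
    rw [h1, LinearEquiv.apply_symm_apply, smul_eq_mul, inv_mul_cancel₀ hfv]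

/-- if `x` is orthogonal to a set it is orthogonal to its span -/
lemma dot_span_zero {Z : Set (Fin m → ℝ)} {x : Fin m → ℝ} (h : ∀ z ∈ Z, dotProduct z x = 0)
    {w : Fin m → ℝ} (hw : w ∈ span ℝ Z) : dotProduct w x = 0 := by
  induction hw using Submodule.span_induction with
  | mem x hx => exact h x hx
  | zero => simp
  | add x y _ _ hx hy => rw [add_dotProduct, hx, hy, add_zero]
  | smul a x _ hx => rw [smul_dotProduct, hx, smul_zero]

def Real' {ι : Type*} (a : ι → Fin m → ℝ) (x : Fin m → ℝ) (σ : ι → SignType) : Prop :=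
  ∀ i, SignType.sign (dotProduct (a i) x) = σ i

noncomputable def rk {ι : Type*} (a : ι → Fin m → ℝ) (σ : ι → SignType) : ℕ :=
  Module.finrank ℝ (span ℝ (a '' {i | σ i = 0}))

/-- faces of codimension `ρ` -/
def faces {ι : Type*} (a : ι → Fin m → ℝ) (ρ : ℕ) : Set (ι → SignType) :=
  {σ | (∃ x : Fin m → ℝ, ∀ i, SignType.sign (dotProduct (a i) x) = σ i) ∧
    Module.finrank ℝ (span ℝ (a '' {i | σ i = 0})) = ρ}

/-- faces cut by the new hyperplane -/
def cut {ι : Type*} (a : ι → Fin m → ℝ) (v : Fin m → ℝ) (ρ : ℕ) : Set (ι → SignType) :=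
  {τ | v ∉ span ℝ (a '' {i | τ i = 0}) ∧
    Module.finrank ℝ (span ℝ (a '' {i | τ i = 0})) = ρ ∧
    ∃ x : Fin m → ℝ, (∀ i, SignType.sign (dotProduct (a i) x) = τ i) ∧ dotProduct v x = 0}

/-- invariance under reindexing -/
lemma ncard_faces_reindex {ι κ : Type*} (a : ι → Fin m → ℝ) (e : κ ≃ ι) (ρ : ℕ) :
    (faces (a ∘ e) ρ).ncard = (faces a ρ).ncard := by
  have himg : ∀ σ : ι → SignType, (a ∘ e) '' {k | (σ ∘ e) k = 0} = a '' {i | σ i = 0} := by
    intro σ
    ext w
    constructor
    · rintro ⟨k, hk, rfl⟩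
      exact ⟨e k, hk, rfl⟩
    · rintro ⟨i, hi, rfl⟩
      exact ⟨e.symm i, by simpa using hi, by simp⟩
  have h : faces (a ∘ e) ρ = (fun σ : ι → SignType => σ ∘ e) '' (faces a ρ) := by
    ext τ
    constructor
    · rintro ⟨⟨x, hx⟩, hr⟩
      refine ⟨τ ∘ e.symm, ⟨⟨x, fun i => ?_⟩, ?_⟩, ?_⟩
      · have := hx (e.symm i)
        simpa using this
      · have h1 := himg (τ ∘ e.symm)
        have h2 : (τ ∘ e.symm) ∘ e = τ := by ext k; simp
        rw [h2] at h1
        rw [← h1]
        exact hr
      · ext k; simp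
    · rintro ⟨σ, ⟨⟨x, hx⟩, hr⟩, rfl⟩
      refine ⟨⟨x, fun k => hx (e k)⟩, ?_⟩
      show Module.finrank ℝ (span ℝ ((a ∘ e) '' {k | (σ ∘ e) k = 0})) = ρ
      rw [himg]; exact hr
  rw [h, Set.ncard_image_of_injective]
  intro σ τ hστ
  have : σ ∘ e = τ ∘ e := hστ
  ext i
  have h2 := congrFun this (e.symm i)
  simp only [Function.comp_apply, Equiv.apply_symm_apply] at h2
  rw [h2]

section recursion

variable {ι : Type*} (b : Option ι → Fin m → ℝ)

lemma image_some_zero (σ : Option ι → SignType) (h : σ none ≠ 0) :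
    b '' {i | σ i = 0} = (fun i => b (some i)) '' {i | σ (some i) = 0} := by
  ext w
  constructor
  · rintro ⟨i, hi, rfl⟩
    cases i with
    | none => exact absurd hi h
    | some i => exact ⟨i, hi, rfl⟩
  · rintro ⟨i, hi, rfl⟩
    exact ⟨some i, hi, rfl⟩

lemma image_none_zero (σ : Option ι → SignType) (h : σ none = 0) :
    b '' {i | σ i = 0} = insert (b none) ((fun i => b (some i)) '' {i | σ (some i) = 0}) := by
  ext w
  constructor
  · rintro ⟨i, hi, rfl⟩
    cases i with
    | none => exact Set.mem_insert _ _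
    | some i => exact Set.mem_insert_of_mem _ ⟨i, hi, rfl⟩
  · rintro (rfl | ⟨i, hi, rfl⟩)
    · exact ⟨none, h, rfl⟩
    · exact ⟨some i, hi, rfl⟩

lemma real_zero_span {ι : Type*} (a : ι → Fin m → ℝ) (τ : ι → SignType) (x : Fin m → ℝ)
    (hx : ∀ i, SignType.sign (dotProduct (a i) x) = τ i) {w : Fin m → ℝ}
    (hw : w ∈ span ℝ (a '' {i | τ i = 0})) : dotProduct w x = 0 := by
  refine dot_span_zero ?_ hw
  rintro z ⟨i, hi, rfl⟩
  have h1 := hx i
  have h2 : τ i = 0 := hi
  rw [h2] at h1
  exact sign_eq_zero_iff.1 h1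

/-- pushing a realising point off the new hyperplane -/
lemma push {ι : Type*} [Finite ι] (a : ι → Fin m → ℝ) (v : Fin m → ℝ) (τ : ι → SignType)
    (x : Fin m → ℝ)
    (hx : ∀ i, SignType.sign (dotProduct (a i) x) = τ i) (hvx : dotProduct v x = 0)
    (hv : v ∉ span ℝ (a '' {i | τ i = 0})) :
    (∃ y : Fin m → ℝ, (∀ i, SignType.sign (dotProduct (a i) y) = τ i) ∧ 0 < dotProduct v y) ∧
    (∃ y : Fin m → ℝ, (∀ i, SignType.sign (dotProduct (a i) y) = τ i) ∧ dotProduct v y < 0) := by
  obtain ⟨u, hu0, hu1⟩ := exists_ann _ v hv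
  have huz : ∀ i, dotProduct (a i) x = 0 → dotProduct (a i) u = 0 := by
    intro i hi
    apply hu0
    apply subset_span
    refine ⟨i, ?_, rfl⟩
    show τ i = 0
    rw [← hx i, hi, sign_zero]
  constructor
  · obtain ⟨ε, hε, h⟩ := exists_eps (fun i => dotProduct (a i) x) (fun i => dotProduct (a i) u)
    refine ⟨x + ε • u, fun i => ?_, ?_⟩
    · rw [dotProduct_add, dotProduct_smul, smul_eq_mul, h i]
      split_ifs with h0
      · rw [huz i h0, ← hx i, h0]
      · exact hx i
    · rw [dotProduct_add, dotProduct_smul, smul_eq_mul, hvx, hu1]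
      linarith
  · obtain ⟨ε, hε, h⟩ := exists_eps (fun i => dotProduct (a i) x) (fun i => - dotProduct (a i) u)
    refine ⟨x - ε • u, fun i => ?_, ?_⟩
    · rw [dotProduct_sub, dotProduct_smul, smul_eq_mul, sub_eq_add_neg, ← mul_neg, h i]
      split_ifs with h0
      · rw [huz i h0, ← hx i, h0, neg_zero]
      · exact hx i
    · rw [dotProduct_sub, dotProduct_smul, smul_eq_mul, hvx, hu1]
      linarith

lemma sign_combo {s t : ℝ} (hs : 0 < s) (ht : 0 < t) {p q : ℝ} {τ : SignType}
    (hp : SignType.sign p = τ) (hq : SignType.sign q = τ) : SignType.sign (s * p + t * q) = τ := by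
  rcases lt_trichotomy p 0 with h | h | h
  · have hτ : τ = -1 := by rw [← hp, sign_neg h]
    have hq' : q < 0 := by
      rw [hτ] at hq
      exact sign_eq_neg_one_iff.1 hq
    rw [hτ]
    apply sign_neg
    nlinarith [mul_pos_of_neg_of_neg (neg_neg_of_pos hs) h, mul_pos_of_neg_of_neg (neg_neg_of_pos ht) hq']
  · have hτ : τ = 0 := by rw [← hp, h, sign_zero]
    have hq' : q = 0 := by
      rw [hτ] at hq
      exact sign_eq_zero_iff.1 hq
    rw [hτ, h, hq']
    simp
  · have hτ : τ = 1 := by rw [← hp, sign_pos h]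
    have hq' : 0 < q := by
      rw [hτ] at hq
      exact sign_eq_one_iff.1 hq
    rw [hτ]
    apply sign_pos
    positivity

/-- The deletion recursion for face numbers. -/
theorem faces_recursion [Finite ι] (ρ : ℕ) :
    (faces b ρ).ncard = (faces (fun i => b (some i)) ρ).ncard +
      (cut (fun i => b (some i)) (b none) ρ).ncard +
      (if ρ = 0 then 0 else (cut (fun i => b (some i)) (b none) (ρ - 1)).ncard) := by
  classical
  set a : ι → Fin m → ℝ := fun i => b (some i) with ha
  set v := b none with hv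
  set P : Set (ι → SignType) := {τ | Module.finrank ℝ (span ℝ (a '' {i | τ i = 0})) = ρ ∧
    ∃ x : Fin m → ℝ, (∀ i, SignType.sign (dotProduct (a i) x) = τ i) ∧ 0 < dotProduct v x} with hP
  set Q : Set (ι → SignType) := {τ | Module.finrank ℝ (span ℝ (a '' {i | τ i = 0})) = ρ ∧
    ∃ x : Fin m → ℝ, (∀ i, SignType.sign (dotProduct (a i) x) = τ i) ∧ dotProduct v x < 0} with hQ
  set A : Set (ι → SignType) := {τ | τ ∈ faces a ρ ∧ v ∈ span ℝ (a '' {i | τ i = 0})} with hA
  set Cm : Set (ι → SignType) := {τ | ρ ≠ 0 ∧ τ ∈ cut a v (ρ - 1)} with hCm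
  set ext : SignType → (ι → SignType) → (Option ι → SignType) :=
    fun s τ o => o.elim s τ with hext
  have hinj : ∀ s, Function.Injective (ext s) := by
    intro s τ τ' h
    ext i
    have := congrFun h (some i)
    simp only [hext, Option.elim_some] at this
    rw [this]
  have hfac : faces b ρ = (ext 1 '' P) ∪ (ext (-1) '' Q) ∪ (ext 0 '' (A ∪ Cm)) := by
    ext σ
    have hσ : σ = ext (σ none) (fun i => σ (some i)) := by
      funext o
      cases o <;> rfl
    constructor
    · rintro ⟨⟨x, hx⟩, hr⟩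
      have hxi : ∀ i, SignType.sign (dotProduct (a i) x) = σ (some i) := fun i => hx (some i)
      have hxv : SignType.sign (dotProduct v x) = σ none := hx none
      rcases lt_trichotomy (dotProduct v x) 0 with h | h | h
      · have hn : σ none = -1 := by rw [← hxv, sign_neg h]
        left; right
        refine ⟨fun i => σ (some i), ⟨?_, x, hxi, h⟩, ?_⟩
        · rw [image_some_zero b σ (by rw [hn]; decide)] at hr
          exact hr
        · rw [← hn]; exact hσ.symm
      · have hn : σ none = 0 := by rw [← hxv, h, sign_zero]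
        right
        rw [image_none_zero b σ hn] at hr
        refine ⟨fun i => σ (some i), ?_, ?_⟩
        · by_cases hvs : v ∈ span ℝ (a '' {i | σ (some i) = 0})
          · left
            refine ⟨⟨⟨x, hxi⟩, ?_⟩, hvs⟩
            rw [span_insert_eq_span hvs] at hr
            exact hr
          · right
            rw [span_insert, sup_comm, finrank_sup_span_singleton hvs] at hr
            refine ⟨by omega, hvs, ?_, x, hxi, h⟩
            show Module.finrank ℝ (span ℝ (a '' {i | σ (some i) = 0})) = ρ - 1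
            have hr' : Module.finrank ℝ (span ℝ (a '' {i | σ (some i) = 0})) + 1 = ρ := hr
            omega
        · rw [← hn]; exact hσ.symm
      · have hn : σ none = 1 := by rw [← hxv, sign_pos h]
        left; left
        refine ⟨fun i => σ (some i), ⟨?_, x, hxi, h⟩, ?_⟩
        · rw [image_some_zero b σ (by rw [hn]; decide)] at hr
          exact hr
        · rw [← hn]; exact hσ.symm
    · rintro ((⟨τ, ⟨hr, x, hx, h⟩, rfl⟩ | ⟨τ, ⟨hr, x, hx, h⟩, rfl⟩) | ⟨τ, hτ, rfl⟩)
      · refine ⟨⟨x, fun o => ?_⟩, ?_⟩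
        · cases o with
          | none => exact sign_pos h
          | some i => exact hx i
        · rw [image_some_zero b _ (by simp [hext])]
          exact hr
      · refine ⟨⟨x, fun o => ?_⟩, ?_⟩
        · cases o with
          | none => exact sign_neg h
          | some i => exact hx i
        · rw [image_some_zero b _ (by simp [hext])]
          exact hr
      · rcases hτ with ⟨⟨⟨x, hx⟩, hr⟩, hvs⟩ | ⟨hρ, hvs, hr, x, hx, h⟩
        · refine ⟨⟨x, fun o => ?_⟩, ?_⟩
          · cases o with
            | none =>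
              show SignType.sign (dotProduct v x) = 0
              rw [real_zero_span a τ x hx hvs, sign_zero]
            | some i => exact hx i
          · rw [image_none_zero b _ (by simp [hext])]
            show Module.finrank ℝ (span ℝ (insert v (a '' {i | τ i = 0}))) = ρ
            rw [span_insert_eq_span hvs]
            exact hr
        · refine ⟨⟨x, fun o => ?_⟩, ?_⟩
          · cases o with
            | none =>
              show SignType.sign (dotProduct v x) = 0
              rw [h, sign_zero]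
            | some i => exact hx i
          · rw [image_none_zero b _ (by simp [hext])]
            show Module.finrank ℝ (span ℝ (insert v (a '' {i | τ i = 0}))) = ρ
            rw [span_insert, sup_comm, finrank_sup_span_singleton hvs, hr]
            omega
  have hd1 : Disjoint (ext 1 '' P) (ext (-1) '' Q) := by
    rw [Set.disjoint_left]
    rintro σ ⟨τ, _, rfl⟩ ⟨τ', _, h⟩
    have := congrFun h none
    simp [hext] at this
  have hd2 : Disjoint ((ext 1 '' P) ∪ (ext (-1) '' Q)) (ext 0 '' (A ∪ Cm)) := by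
    rw [Set.disjoint_left]
    rintro σ (⟨τ, _, rfl⟩ | ⟨τ, _, rfl⟩) ⟨τ', _, h⟩
    · have := congrFun h none
      simp [hext] at this
    · have := congrFun h none
      simp [hext] at this
  have hd3 : Disjoint A Cm := by
    rw [Set.disjoint_left]
    rintro τ ⟨_, h⟩ ⟨_, h', _⟩
    exact h' h
  have hPQ : P ∪ Q = {τ | τ ∈ faces a ρ ∧ v ∉ span ℝ (a '' {i | τ i = 0})} := by
    ext τ
    constructor
    · rintro (⟨hr, x, hx, h⟩ | ⟨hr, x, hx, h⟩)
      · refine ⟨⟨⟨x, hx⟩, hr⟩, fun hvs => ?_⟩
        rw [real_zero_span a τ x hx hvs] at h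
        exact lt_irrefl _ h
      · refine ⟨⟨⟨x, hx⟩, hr⟩, fun hvs => ?_⟩
        rw [real_zero_span a τ x hx hvs] at h
        exact lt_irrefl _ h
    · rintro ⟨⟨⟨x, hx⟩, hr⟩, hvs⟩
      rcases lt_trichotomy (dotProduct v x) 0 with h | h | h
      · exact Or.inr ⟨hr, x, hx, h⟩
      · exact Or.inl ⟨hr, (push a v τ x hx h hvs).1⟩
      · exact Or.inl ⟨hr, x, hx, h⟩
  have hPQi : P ∩ Q = cut a v ρ := by
    ext τ
    constructor
    · rintro ⟨⟨hr, x, hx, h⟩, ⟨_, y, hy, h'⟩⟩
      refine ⟨fun hvs => ?_, hr, (-dotProduct v y) • x + (dotProduct v x) • y, fun i => ?_, ?_⟩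
      · rw [real_zero_span a τ x hx hvs] at h
        exact lt_irrefl _ h
      · rw [dotProduct_add, dotProduct_smul, dotProduct_smul, smul_eq_mul, smul_eq_mul]
        exact sign_combo (by linarith) h (hx i) (hy i)
      · rw [dotProduct_add, dotProduct_smul, dotProduct_smul, smul_eq_mul, smul_eq_mul]
        ring
    · rintro ⟨hvs, hr, x, hx, h⟩
      exact ⟨⟨hr, (push a v τ x hx h hvs).1⟩, ⟨hr, (push a v τ x hx h hvs).2⟩⟩
  have hfa : faces a ρ = A ∪ (P ∪ Q) := by
    rw [hPQ]
    ext τ
    constructor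
    · intro h
      by_cases hvs : v ∈ span ℝ (a '' {i | τ i = 0})
      · exact Or.inl ⟨h, hvs⟩
      · exact Or.inr ⟨h, hvs⟩
    · rintro (h | h)
      · exact h.1
      · exact h.1
  have hd4 : Disjoint A (P ∪ Q) := by
    rw [hPQ, Set.disjoint_left]
    rintro τ ⟨_, h⟩ ⟨_, h'⟩
    exact h' h
  have hfin : ∀ s : Set (ι → SignType), s.Finite := fun s => Set.toFinite s
  have hfin' : ∀ s : Set (Option ι → SignType), s.Finite := fun s => Set.toFinite s
  have hCmc : Cm.ncard = if ρ = 0 then 0 else (cut a v (ρ - 1)).ncard := by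
    by_cases h0 : ρ = 0
    · rw [if_pos h0]
      have : Cm = ∅ := by
        ext τ; simp [hCm, h0]
      rw [this, Set.ncard_empty]
    · rw [if_neg h0]
      congr 1
      ext τ; simp [hCm, h0]
  have hcard1 := Set.ncard_union_add_ncard_inter P Q (hfin P) (hfin Q)
  rw [hPQi] at hcard1
  rw [hfac, Set.ncard_union_eq hd2 (hfin' _) (hfin' _), Set.ncard_union_eq hd1 (hfin' _) (hfin' _),
    Set.ncard_image_of_injective _ (hinj 1), Set.ncard_image_of_injective _ (hinj (-1)),
    Set.ncard_image_of_injective _ (hinj 0), Set.ncard_union_eq hd3 (hfin _) (hfin _), hfa,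
    Set.ncard_union_eq hd4 (hfin _) (hfin _), ← hCmc]
  omega

end recursion

end Pool.Agent.H232R2
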