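import Mathlib

set_option autoImplicit false

namespace Pool.Agent.H232R2

open Submodule

variable {W : Type*} [AddCommGroup W] [Module ℝ W]

/-- coordinate functionals of a linearly independent set -/
lemma exists_coord (B : Set W) (hB : LinearIndepOn ℝ id B) :
    ∃ φ : W → (W →ₗ[ℝ] ℝ), (∀ b ∈ B, φ b b = 1) ∧
      (∀ b ∈ B, ∀ b' ∈ B, b ≠ b' → φ b b' = 0) ∧
      (∀ D ⊆ B, ∀ v ∈ span ℝ B, (∀ b ∈ B, b ∉ D → φ b v = 0) → v ∈ span ℝ D) := by
  classical
  set E := Module.Basis.extend hB with hE
  have hsub : B ⊆ hB.extend (Set.subset_univ B) := hB.subset_extend _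
  refine ⟨fun b => if h : b ∈ hB.extend (Set.subset_univ B) then E.coord ⟨b, h⟩ else 0, ?_, ?_, ?_⟩
  · intro b hb
    have h := hsub hb
    simp only [h, dif_pos]
    have : (b : W) = E ⟨b, h⟩ := by simp [hE]
    calc E.coord ⟨b, h⟩ b = E.coord ⟨b, h⟩ (E ⟨b, h⟩) := congrArg _ this
      _ = 1 := by simp
  · intro b hb b' hb' hne
    have h := hsub hb
    have h' := hsub hb'
    simp only [h, dif_pos]
    have : (b' : W) = E ⟨b', h'⟩ := by simp [hE]
    rw [this, Module.Basis.coord_apply, Module.Basis.repr_self, Finsupp.single_apply]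
    rw [if_neg]
    intro h2
    apply hne
    have := congrArg Subtype.val h2
    exact this.symm
  · intro D hD v hv hz
    have hDE : D = E '' {i | (i : W) ∈ D} := by
      ext w
      constructor
      · intro hw
        exact ⟨⟨w, hsub (hD hw)⟩, hw, by simp [hE]⟩
      · rintro ⟨i, hi, rfl⟩
        simpa [hE] using hi
    have hBE : B = E '' {i | (i : W) ∈ B} := by
      ext w
      constructor
      · intro hw
        exact ⟨⟨w, hsub hw⟩, hw, by simp [hE]⟩
      · rintro ⟨i, hi, rfl⟩
        simpa [hE] using hi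
    rw [hDE, Module.Basis.mem_span_image]
    rw [hBE, Module.Basis.mem_span_image] at hv
    intro i hi
    have hiB : (i : W) ∈ B := hv hi
    by_contra hiD
    have := hz i hiB hiD
    simp only [i.2, dif_pos] at this
    have h0 : E.repr v i = 0 := by simpa using this
    simp [Finsupp.mem_support_iff] at hi
    exact hi h0

/-- The conclusion of the strengthened Motzkin–Hansen theorem. -/
def Concl (S : Set W) (o : W) : Prop :=
  ∃ T₀ ⊆ S, ∃ x ∈ S, x ∉ span ℝ T₀ ∧
    (∀ w ∈ S, w ∈ span ℝ (insert x T₀) → w ∈ span ℝ T₀ ∨ w = x) ∧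
    ∃ y ∈ S, ∃ z ∈ S, y ∉ span ℝ (insert x T₀) ∧ z ∉ span ℝ (insert x T₀) ∧
    ∃ α β α' β' : ℝ, o - (α • x + β • y) ∈ span ℝ T₀ ∧ o - (α' • x + β' • z) ∈ span ℝ T₀ ∧
      α * α' < 0

def Generic (S : Set W) (o : W) : Prop :=
  o ∈ span ℝ S ∧ ∀ T ⊆ S, o ∈ span ℝ T → span ℝ S ≤ span ℝ T

/-- maximal coefficient -/
lemma exists_max_coeff (S : Set W) (hS : S.Finite) (q : W) (hq : q ∈ S) (hq0 : q ≠ 0) (o : W)
    (ho : Generic S o) :
    ∃ T ⊆ S, ∃ t : ℝ, q ∉ span ℝ T ∧ o - t • q ∈ span ℝ T ∧
      ∀ T' ⊆ S, ∀ t' : ℝ, q ∉ span ℝ T' → o - t' • q ∈ span ℝ T' → |t'| ≤ |t| := by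
  classical
  set A : Set ℝ := {t | ∃ T ⊆ S, q ∉ span ℝ T ∧ o - t • q ∈ span ℝ T} with hA
  have hfin : A.Finite := by
    have h1 : (𝒫 S).Finite := hS.finite_subsets
    refine (h1.image (fun T => if h : ∃ t : ℝ, o - t • q ∈ span ℝ T then h.choose else 0)).subset ?_
    rintro t ⟨T, hTS, hqT, ht⟩
    refine ⟨T, hTS, ?_⟩
    have hex : ∃ t : ℝ, o - t • q ∈ span ℝ T := ⟨t, ht⟩
    simp only [hex, dif_pos]
    have h2 := hex.choose_spec
    by_contra hne
    have h3 := (span ℝ T).sub_mem ht h2
    have h4 : (o - t • q - (o - hex.choose • q)) = (hex.choose - t) • q := by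
      rw [sub_smul]; abel
    rw [h4] at h3
    exact hqT ((Submodule.smul_mem_iff _ (sub_ne_zero.mpr hne)).1 h3)
  have hne : A.Nonempty := by
    -- extend {q} to a basis inside S
    have hli : LinearIndepOn ℝ id ({q} : Set W) := by
      exact LinearIndepOn.singleton hq0
    obtain ⟨B, hBS, hqB, hspan, hBli⟩ := exists_linearIndepOn_id_extension hli (Set.singleton_subset_iff.2 hq)
    have hqB' : q ∈ B := hqB rfl
    obtain ⟨φ, h1, h2, h3⟩ := exists_coord B hBli
    refine ⟨φ q o, B \ {q}, Set.sdiff_subset.trans hBS, ?_, ?_⟩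
    · intro hmem
      have : ∀ v ∈ span ℝ (B \ {q}), φ q v = 0 := by
        intro v hv
        induction hv using Submodule.span_induction with
        | mem x hx => exact h2 q hqB' x hx.1 (fun h => hx.2 h.symm)
        | zero => simp
        | add x y _ _ hx hy => simp [hx, hy]
        | smul a x _ hx => simp [hx]
      have := this q hmem
      rw [h1 q hqB'] at this
      exact one_ne_zero this
    · have hoB : o ∈ span ℝ B := (span_le.2 hspan) ho.1
      refine h3 _ Set.sdiff_subset _ ?_ ?_
      · exact sub_mem hoB (smul_mem _ _ (subset_span hqB'))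
      · intro b hb hb'
        have : b = q := by
          by_contra hne
          exact hb' ⟨hb, hne⟩
        subst this
        simp [h1 b hb]
  obtain ⟨t, ⟨T, hTS, hqT, ht⟩, hmax⟩ := Set.exists_max_image A (fun t => |t|) hfin hne
  exact ⟨T, hTS, t, hqT, ht, fun T' hT' t' hq' ht' => hmax t' ⟨T', hT', hq', ht'⟩⟩


lemma coord_zero {B : Set W} {φ : W → (W →ₗ[ℝ] ℝ)}
    (h2 : ∀ b ∈ B, ∀ b' ∈ B, b ≠ b' → φ b b' = 0) {D : Set W} (hD : D ⊆ B) {b : W} (hb : b ∈ B)
    (hbD : b ∉ D) {v : W} (hv : v ∈ span ℝ D) : φ b v = 0 := by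
  induction hv using Submodule.span_induction with
  | mem x hx => exact h2 b hb x (hD hx) (fun h => hbD (h ▸ hx))
  | zero => simp
  | add x y _ _ hx hy => simp [hx, hy]
  | smul a x _ hx => simp [hx]

lemma caseB (S : Set W) (hS : S.Finite)
    (hpar : ∀ v ∈ S, ∀ w ∈ S, v ≠ w → ∀ c : ℝ, v ≠ c • w)
    (hdep : ¬ LinearIndepOn ℝ id S) (o : W) (ho : Generic S o) (q : W) (hq : q ∈ S)
    (T : Set W) (hTS : T ⊆ S) (t : ℝ) (hqT : q ∉ span ℝ T) (hot : o - t • q ∈ span ℝ T)
    (hmax : ∀ T' ⊆ S, ∀ t' : ℝ, q ∉ span ℝ T' → o - t' • q ∈ span ℝ T' → |t'| ≤ |t|)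
    (hC : LinearIndepOn ℝ id (S ∩ (span ℝ T : Set W))) : Concl S o := by
  classical
  set C : Set W := S ∩ (span ℝ T : Set W) with hCdef
  have hTC : T ⊆ C := fun v hv => ⟨hTS hv, subset_span hv⟩
  have hspanC : span ℝ C = span ℝ T := by
    apply le_antisymm
    · exact span_le.2 (fun v hv => hv.2)
    · exact span_mono hTC
  have hCS : C ⊆ S := Set.inter_subset_left
  have hqC : q ∉ span ℝ C := by rw [hspanC]; exact hqT
  have hqC' : q ∉ C := fun h => hqC (subset_span h)
  set B : Set W := insert q C with hBdef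
  have hBS : B ⊆ S := Set.insert_subset hq hCS
  have hB : LinearIndepOn ℝ id B := hC.id_insert hqC
  have hCB : C ⊆ B := Set.subset_insert _ _
  have hqB : q ∈ B := Set.mem_insert _ _
  obtain ⟨φ, h1, h2, h3⟩ := exists_coord B hB
  have hoB : o ∈ span ℝ B := by
    have : o = (o - t • q) + t • q := by abel
    rw [this]
    refine add_mem (span_mono hCB (hspanC ▸ hot)) (smul_mem _ _ (subset_span hqB))
  have hspanB : ∀ v ∈ S, v ∈ span ℝ B := fun v hv => ho.2 B hBS hoB (subset_span hv)
  have hne : ∀ x ∈ C, x ≠ q := fun x hx h => hqC' (h ▸ hx)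
  have hqq : φ q q = 1 := h1 q hqB
  have hxx : ∀ x ∈ C, φ x x = 1 := fun x hx => h1 x (hCB hx)
  have hxq : ∀ x ∈ C, φ x q = 0 := fun x hx => h2 x (hCB hx) q hqB (hne x hx)
  have hqx : ∀ x ∈ C, φ q x = 0 := fun x hx => h2 q hqB x (hCB hx) (hne x hx).symm
  have hto : φ q o = t := by
    have : φ q (o - t • q) = 0 := coord_zero h2 hCB hqB hqC' (hspanC ▸ hot)
    simp [hqq] at this
    linarith
  have hox : ∀ x ∈ C, φ x o ≠ 0 := by
    intro x hx h
    have h4 : o ∈ span ℝ (B \ {x}) := by
      refine h3 _ Set.sdiff_subset _ hoB ?_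
      intro b hb hb'
      have : b = x := by
        by_contra hne
        exact hb' ⟨hb, hne⟩
      rw [this, h]
    have h5 := ho.2 _ (Set.sdiff_subset.trans hBS) h4 (subset_span (hCS hx))
    have h6 : φ x x = 0 := coord_zero h2 Set.sdiff_subset (hCB hx) (by simp) h5
    rw [hxx x hx] at h6
    exact one_ne_zero h6
  have ht : t ≠ 0 := by
    intro h
    rw [h, zero_smul, sub_zero] at hot
    exact hqT (ho.2 T hTS hot (subset_span hq))
  have hX : ∀ v ∈ S, φ q v = 0 → v ∈ C := by
    intro v hv hv0
    refine ⟨hv, ?_⟩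
    rw [← hspanC]
    refine h3 C hCB v (hspanB v hv) ?_
    intro b hb hb'
    rcases hb with rfl | hb
    · exact hv0
    · exact absurd hb hb'
  have hX' : ∀ v ∈ S, φ q v ≠ 0 → v ∉ span ℝ C := by
    intro v hv hv0 h
    exact hv0 (coord_zero h2 hCB hqB hqC' h)
  -- K1
  have K1 : ∀ v ∈ S, ∀ x ∈ C, φ x v ≠ 0 → |t - φ x o / φ x v * φ q v| ≤ |t| := by
    intro v hv x hx hxv
    refine hmax (insert v (C \ {x})) (Set.insert_subset hv (Set.sdiff_subset.trans hCS)) _ ?_ ?_
    · intro h
      rw [mem_span_insert] at h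
      obtain ⟨μ, z, hz, hq'⟩ := h
      have h4 : φ x z = 0 := coord_zero h2 (Set.sdiff_subset.trans hCB) (hCB hx) (by simp) hz
      have h5 := congrArg (φ x) hq'
      simp only [map_add, map_smul, h4, hxq x hx, smul_eq_mul, add_zero] at h5
      have h6 : μ = 0 := by
        rcases mul_eq_zero.1 h5.symm with h | h
        · exact h
        · exact absurd h hxv
      rw [h6, zero_smul, zero_add] at hq'
      exact hqC (hq' ▸ span_mono Set.sdiff_subset hz)
    · rw [mem_span_insert]
      refine ⟨φ x o / φ x v, o - (t - φ x o / φ x v * φ q v) • q - (φ x o / φ x v) • v, ?_, by abel⟩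
      refine h3 _ (Set.sdiff_subset.trans hCB) _ ?_ ?_
      · exact sub_mem (sub_mem hoB (smul_mem _ _ (subset_span hqB))) (smul_mem _ _ (hspanB v hv))
      · intro b hb hb'
        rcases hb with rfl | hb
        · simp [hto, hqq]
        · have : b = x := by
            by_contra hne
            exact hb' ⟨hb, hne⟩
          subst this
          simp [hxq b hb]
          field_simp
          simp
  by_contra hcon
  -- K2
  have K2 : ∀ v ∈ S, φ q v ≠ 0 → ∀ x ∈ C, 0 < φ x o * (φ x o - t / φ q v * φ x v) := by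
    intro v hv hv0 x hx
    by_contra hlt
    have hD : C \ {x} ⊆ B := Set.sdiff_subset.trans hCB
    have hle : φ x o * (φ x o - t / φ q v * φ x v) ≤ 0 := not_lt.1 hlt
    rcases hle.lt_or_eq with hlt | heq
    · apply hcon
      have hins : insert x (C \ {x}) = C := by
        rw [Set.insert_sdiff_singleton, Set.insert_eq_of_mem hx]
      refine ⟨C \ {x}, Set.sdiff_subset.trans hCS, x, hCS hx, ?_, ?_, q, hq, v, hv, ?_, ?_,
        φ x o, t, φ x o - t / φ q v * φ x v, t / φ q v, ?_, ?_, hlt⟩
      · intro h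
        have h6 : φ x x = 0 := coord_zero h2 hD (hCB hx) (by simp) h
        rw [hxx x hx] at h6
        exact one_ne_zero h6
      · intro w hw hw'
        rw [hins, hspanC] at hw'
        by_cases hwx : w = x
        · exact Or.inr hwx
        · exact Or.inl (subset_span ⟨⟨hw, hw'⟩, hwx⟩)
      · rw [hins]; exact hqC
      · rw [hins]; exact hX' v hv hv0
      · refine h3 _ hD _ ?_ ?_
        · exact sub_mem hoB (add_mem (smul_mem _ _ (subset_span (hCB hx)))
            (smul_mem _ _ (subset_span hqB)))
        · intro b hb hb'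
          rcases hb with rfl | hb
          · simp [hto, hqq, hqx x hx]
          · have : b = x := by
              by_contra hne
              exact hb' ⟨hb, hne⟩
            subst this
            simp [hxq b hb, hxx b hb]
      · refine h3 _ hD _ ?_ ?_
        · exact sub_mem hoB (add_mem (smul_mem _ _ (subset_span (hCB hx)))
            (smul_mem _ _ (hspanB v hv)))
        · intro b hb hb'
          rcases hb with rfl | hb
          · simp [hto, hqx x hx]
            field_simp
            simp
          · have : b = x := by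
              by_contra hne
              exact hb' ⟨hb, hne⟩
            subst this
            simp [hxx b hb]
    · have h4 : φ x o - t / φ q v * φ x v = 0 := by
        rcases mul_eq_zero.1 heq with h | h
        · exact absurd h (hox x hx)
        · exact h
      have h5 : o ∈ span ℝ (insert v (C \ {x})) := by
        rw [mem_span_insert]
        refine ⟨t / φ q v, o - (t / φ q v) • v, ?_, by abel⟩
        refine h3 _ hD _ ?_ ?_
        · exact sub_mem hoB (smul_mem _ _ (hspanB v hv))
        · intro b hb hb'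
          rcases hb with rfl | hb
          · simp [hto]
            field_simp
            simp
          · have : b = x := by
              by_contra hne
              exact hb' ⟨hb, hne⟩
            subst this
            simpa using h4
      have h6 := ho.2 _ (Set.insert_subset hv (Set.sdiff_subset.trans hCS)) h5
        (subset_span (hCS hx))
      rw [mem_span_insert] at h6
      obtain ⟨μ, z, hz, hx'⟩ := h6
      have h7 : φ q z = 0 := coord_zero h2 hD hqB (fun h => hqC' h.1) hz
      have h8 := congrArg (φ q) hx'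
      simp only [map_add, map_smul, h7, hqx x hx, smul_eq_mul, add_zero] at h8
      have h9 : μ = 0 := by
        rcases mul_eq_zero.1 h8.symm with h | h
        · exact h
        · exact absurd h hv0
      rw [h9, zero_smul, zero_add] at hx'
      have h10 : φ x z = 0 := coord_zero h2 hD (hCB hx) (by simp) hz
      rw [← hx', hxx x hx] at h10
      exact one_ne_zero h10
  have K : ∀ v ∈ S, φ q v ≠ 0 → ∀ x ∈ C, φ x v ≠ 0 →
      ∃ s : ℝ, 1 < s ∧ s ≤ 2 ∧ φ x o / φ x v * φ q v = t * s := by
    intro v hv hv0 x hx hxv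
    have ho' := hox x hx
    have k1 := K1 v hv x hx hxv
    have k2 := K2 v hv hv0 x hx
    set s := φ x o / φ x v * φ q v / t with hs
    have hst : φ x o / φ x v * φ q v = t * s := by rw [hs]; field_simp
    have hs0 : s ≠ 0 := by
      rw [hs]
      exact div_ne_zero (mul_ne_zero (div_ne_zero ho' hxv) hv0) ht
    rw [hst] at k1
    have e1 : t - t * s = t * (1 - s) := by ring
    rw [e1, abs_mul] at k1
    have k3 : |1 - s| ≤ 1 := by
      have : 0 < |t| := abs_pos.2 ht
      nlinarith
    rw [abs_le] at k3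
    have hspos : 0 < s := lt_of_le_of_ne (by linarith [k3.2]) (Ne.symm hs0)
    have e2 : φ x o * (φ x o - t / φ q v * φ x v) = (φ x o) ^ 2 * (1 - 1 / s) := by
      rw [hs]; field_simp
    rw [e2] at k2
    have k4 : 0 < 1 - 1 / s := by
      by_contra h
      have h' := not_lt.1 h
      have : 0 < (φ x o) ^ 2 := by positivity
      nlinarith
    refine ⟨s, ?_, by linarith [k3.1], hst⟩
    have k5 : 1 / s < 1 := by linarith
    rwa [div_lt_one hspos] at k5
  -- existence of v in X other than q
  have hXne : ∃ v ∈ S, φ q v ≠ 0 ∧ v ≠ q := by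
    by_contra h
    push Not at h
    apply hdep
    have : S = B := by
      apply Set.Subset.antisymm
      · intro v hv
        by_cases hv0 : φ q v = 0
        · exact hCB (hX v hv hv0)
        · rw [h v hv hv0]; exact hqB
      · exact hBS
    rw [this]
    exact hB
  -- (3)
  have K3 : ∀ x ∈ C, ∃ v ∈ S, φ q v ≠ 0 ∧ v ≠ q ∧ φ x v = 0 := by
    intro x hx
    by_contra h
    push Not at h
    obtain ⟨v, hv, hv0, hvq⟩ := hXne
    have hxv := h v hv hv0 hvq
    obtain ⟨s, hs1, hs2, hst⟩ := K v hv hv0 x hx hxv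
    apply hcon
    have hD : C \ {x} ⊆ B := Set.sdiff_subset.trans hCB
    have hD' : insert q (C \ {x}) ⊆ B := Set.insert_subset hqB hD
    have hxD' : x ∉ insert q (C \ {x}) := by
      rintro (h | h)
      · exact hne x hx h
      · exact h.2 rfl
    refine ⟨C \ {x}, Set.sdiff_subset.trans hCS, q, hq, ?_, ?_, x, hCS hx, v, hv, ?_, ?_,
        t, φ x o, t - t * s, φ x o / φ x v, ?_, ?_, ?_⟩
    · intro h
      exact hqC (span_mono Set.sdiff_subset h)
    · intro w hw hw'
      have hxw : φ x w = 0 := coord_zero h2 hD' (hCB hx) hxD' hw'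
      by_cases hwq : w = q
      · exact Or.inr hwq
      · left
        by_cases hw0 : φ q w = 0
        · apply subset_span
          refine ⟨hX w hw hw0, ?_⟩
          rintro rfl
          rw [hxx _ hx] at hxw
          exact one_ne_zero hxw
        · exact absurd hxw (h w hw hw0 hwq)
    · intro h
      have h6 : φ x x = 0 := coord_zero h2 hD' (hCB hx) hxD' h
      rw [hxx x hx] at h6
      exact one_ne_zero h6
    · intro h
      exact hxv (coord_zero h2 hD' (hCB hx) hxD' h)
    · refine h3 _ hD _ ?_ ?_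
      · exact sub_mem hoB (add_mem (smul_mem _ _ (subset_span hqB))
            (smul_mem _ _ (subset_span (hCB hx))))
      · intro b hb hb'
        rcases hb with rfl | hb
        · simp [hto, hqq, hqx x hx]
        · have : b = x := by
            by_contra hne
            exact hb' ⟨hb, hne⟩
          subst this
          simp [hxq b hb, hxx b hb]
    · refine h3 _ hD _ ?_ ?_
      · exact sub_mem hoB (add_mem (smul_mem _ _ (subset_span hqB))
            (smul_mem _ _ (hspanB v hv)))
      · intro b hb hb'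
        rcases hb with rfl | hb
        · simp only [map_sub, map_add, map_smul, hto, hqq, smul_eq_mul]
          rw [hst]; ring
        · have : b = x := by
            by_contra hne
            exact hb' ⟨hb, hne⟩
          subst this
          simp only [map_sub, map_add, map_smul, hxq b hb, smul_eq_mul]
          field_simp
          simp
    · have : 0 < t ^ 2 := by positivity
      nlinarith
  -- (4)
  have K4 : ∀ x ∈ C, ∀ x' ∈ C, x ≠ x' → ∀ v ∈ S, ∀ w ∈ S, φ q v ≠ 0 → φ q w ≠ 0 →
      φ x v = 0 → φ x' v ≠ 0 → φ x' w = 0 → φ x w ≠ 0 → False := by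
    intro x hx x' hx' hxx' v hv w hw hv0 hw0 a1 a2 a3 a4
    obtain ⟨s, hs1, hs2, hst⟩ := K v hv hv0 x' hx' a2
    obtain ⟨s', hs1', hs2', hst'⟩ := K w hw hw0 x hx a4
    have hD : C \ {x, x'} ⊆ B := Set.sdiff_subset.trans hCB
    have hmx := hmax (insert v (insert w (C \ {x, x'})))
      (Set.insert_subset hv (Set.insert_subset hw (Set.sdiff_subset.trans hCS)))
      (t - t * s - t * s') ?_ ?_
    · have e1 : t - t * s - t * s' = t * (1 - s - s') := by ring
      rw [e1, abs_mul] at hmx
      have k3 : |1 - s - s'| ≤ 1 := by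
        have : 0 < |t| := abs_pos.2 ht
        nlinarith
      rw [abs_le] at k3
      linarith [k3.1]
    · intro h
      rw [mem_span_insert] at h
      obtain ⟨μ, z, hz, hq'⟩ := h
      rw [mem_span_insert] at hz
      obtain ⟨ν, z', hz', rfl⟩ := hz
      have b1 : φ x z' = 0 := coord_zero h2 hD (hCB hx) (by simp) hz'
      have b2 : φ x' z' = 0 := coord_zero h2 hD (hCB hx') (by simp) hz'
      have h5 := congrArg (φ x) hq'
      simp only [map_add, map_smul, b1, hxq x hx, smul_eq_mul, add_zero, a1, mul_zero, zero_add] at h5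
      have h6 : ν = 0 := by
        rcases mul_eq_zero.1 h5.symm with h | h
        · exact h
        · exact absurd h a4
      have h7 := congrArg (φ x') hq'
      simp only [map_add, map_smul, b2, hxq x' hx', smul_eq_mul, add_zero, a3, mul_zero] at h7
      have h8 : μ = 0 := by
        rcases mul_eq_zero.1 h7.symm with h | h
        · exact h
        · exact absurd h a2
      rw [h6, h8, zero_smul, zero_smul, zero_add, zero_add] at hq'
      exact hqC (hq' ▸ span_mono Set.sdiff_subset hz')
    · rw [mem_span_insert]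
      refine ⟨φ x' o / φ x' v, o - (t - t * s - t * s') • q - (φ x' o / φ x' v) • v, ?_, by abel⟩
      rw [mem_span_insert]
      refine ⟨φ x o / φ x w, o - (t - t * s - t * s') • q - (φ x' o / φ x' v) • v
        - (φ x o / φ x w) • w, ?_, by abel⟩
      refine h3 _ hD _ ?_ ?_
      · exact sub_mem (sub_mem (sub_mem hoB (smul_mem _ _ (subset_span hqB)))
          (smul_mem _ _ (hspanB v hv))) (smul_mem _ _ (hspanB w hw))
      · intro b hb hb'
        rcases hb with rfl | hb
        · simp only [map_sub, map_smul, hto, hqq, smul_eq_mul, hst, hst']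
          ring
        · have : b = x ∨ b = x' := by
            by_contra hne
            exact hb' ⟨hb, hne⟩
          rcases this with rfl | rfl
          · simp only [map_sub, map_smul, hxq b hb, smul_eq_mul, a1]
            field_simp
            simp
          · simp only [map_sub, map_smul, hxq b hb, smul_eq_mul, a3]
            field_simp
            simp
  -- final contradiction
  have hfinal : ∀ v ∈ S, v ≠ q → (∀ x ∈ C, φ x v = 0) → False := by
    intro v hv hvq hall
    have : v ∈ span ℝ ({q} : Set W) := by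
      refine h3 _ (Set.singleton_subset_iff.2 hqB) _ (hspanB v hv) ?_
      intro b hb hb'
      rcases hb with rfl | hb
      · exact absurd rfl hb'
      · exact hall b hb
    rw [mem_span_singleton] at this
    obtain ⟨c, hc⟩ := this
    exact hpar v hv q hq hvq c hc.symm
  have hCfin : C.Finite := hS.subset hCS
  rcases C.eq_empty_or_nonempty with hCe | hCne
  · obtain ⟨v, hv, hv0, hvq⟩ := hXne
    exact hfinal v hv hvq (by rw [hCe]; intro x hx; exact absurd hx (Set.notMem_empty x))
  · obtain ⟨x₀, hx₀, hmin⟩ := Set.exists_min_image C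
      (fun x => Set.ncard {v | v ∈ S ∧ φ q v ≠ 0 ∧ φ x v = 0}) hCfin hCne
    obtain ⟨v, hv, hv0, hvq, hvx⟩ := K3 x₀ hx₀
    refine hfinal v hv hvq ?_
    intro x hx
    by_contra hxv
    have hxx₀ : x₀ ≠ x := by
      rintro rfl
      exact hxv hvx
    -- Z_x ⊆ Z_{x₀}
    have hsub : {v | v ∈ S ∧ φ q v ≠ 0 ∧ φ x v = 0} ⊂ {v | v ∈ S ∧ φ q v ≠ 0 ∧ φ x₀ v = 0} := by
      rw [Set.ssubset_iff_of_subset]
      · exact ⟨v, ⟨hv, hv0, hvx⟩, fun h => hxv h.2.2⟩
      · intro w hw
        refine ⟨hw.1, hw.2.1, ?_⟩
        by_contra hw'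
        exact K4 x₀ hx₀ x hx hxx₀ v hv w hw.1 hv0 hw.2.1 hvx hxv hw.2.2 hw'
    have hlt := Set.ncard_lt_ncard hsub (hS.subset (fun v hv => hv.1))
    exact absurd (hmin x hx) (not_le.2 hlt)


theorem hansen : ∀ (N : ℕ) (S : Set W), S.Finite → Module.finrank ℝ (span ℝ S) = N →
    (∀ v ∈ S, v ≠ 0) → (∀ v ∈ S, ∀ w ∈ S, v ≠ w → ∀ c : ℝ, v ≠ c • w) →
    ¬ LinearIndepOn ℝ id S → ∀ o : W, Generic S o → Concl S o := by
  classical
  intro N
  induction N using Nat.strong_induction_on with
  | _ N IH =>
  intro S hS hN h0 hpar hdep o ho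
  have hSne : S.Nonempty := by
    rw [Set.nonempty_iff_ne_empty]
    rintro rfl
    exact hdep (linearIndepOn_empty ℝ id)
  obtain ⟨q, hq⟩ := hSne
  obtain ⟨T, hTS, t, hqT, hot, hmax⟩ := exists_max_coeff S hS q hq (h0 q hq) o ho
  by_cases hC : LinearIndepOn ℝ id (S ∩ (span ℝ T : Set W))
  · exact caseB S hS hpar hdep o ho q hq T hTS t hqT hot hmax hC
  set C : Set W := S ∩ (span ℝ T : Set W) with hCdef
  have hTC : T ⊆ C := fun v hv => ⟨hTS hv, subset_span hv⟩
  have hspanC : span ℝ C = span ℝ T := by
    apply le_antisymm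
    · exact span_le.2 (fun v hv => hv.2)
    · exact span_mono hTC
  have hCS : C ⊆ S := Set.inter_subset_left
  have hqC : q ∉ span ℝ C := by rw [hspanC]; exact hqT
  have hotC : o - t • q ∈ span ℝ C := by rw [hspanC]; exact hot
  have hmemC : ∀ v ∈ S, v ∈ span ℝ C → v ∈ C := fun v hv hv' => ⟨hv, by rw [← hspanC]; exact hv'⟩
  have hfd : FiniteDimensional ℝ (span ℝ S) := FiniteDimensional.span_of_finite ℝ hS
  have hlt : Module.finrank ℝ (span ℝ C) < N := by
    rw [← hN]
    apply Submodule.finrank_lt_finrank_of_lt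
    refine lt_of_le_of_ne (span_mono hCS) ?_
    intro h
    exact hqC (h ▸ subset_span hq)
  have ht : t ≠ 0 := by
    intro h
    rw [h, zero_smul, sub_zero] at hot
    exact hqT (ho.2 T hTS hot (subset_span hq))
  have hgenC : Generic C (o - t • q) := by
    refine ⟨hotC, ?_⟩
    intro T' hT' hoT'
    have h1 : o ∈ span ℝ (insert q T') := by
      rw [mem_span_insert]
      exact ⟨t, o - t • q, hoT', by abel⟩
    have h2 := ho.2 _ (Set.insert_subset hq (hT'.trans hCS)) h1
    intro v hv
    have h3 := h2 (span_mono hCS hv)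
    rw [mem_span_insert] at h3
    obtain ⟨a, z, hz, rfl⟩ := h3
    have hzC : z ∈ span ℝ C := span_mono hT' hz
    have h4 : a • q ∈ span ℝ C := by
      have := sub_mem hv hzC
      simpa using this
    have ha : a = 0 := by
      by_contra ha
      exact hqC ((Submodule.smul_mem_iff _ ha).1 h4)
    rw [ha, zero_smul, zero_add]
    exact hz
  obtain ⟨T₁, hT₁, x, hx, hxΓ, hord, y, hy, z, hz, hyΓ, hzΓ, α, β, α', β', e1, e2, hneg⟩ :=
    IH _ hlt C (hS.subset hCS) rfl (fun v hv => h0 v (hCS hv))
      (fun v hv w hw => hpar v (hCS hv) w (hCS hw)) hC _ hgenC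
  -- helper: an element of span C of the form g + s q (g in span C) has s = 0
  have hΓC : span ℝ T₁ ≤ span ℝ C := span_mono hT₁
  have hxC : x ∈ span ℝ C := subset_span hx
  have hΓxC : span ℝ (insert x T₁) ≤ span ℝ C := span_mono (Set.insert_subset hx hT₁)
  have key0 : ∀ (a : ℝ) (g : W), g ∈ span ℝ C → a • q + g ∈ span ℝ C → a = 0 := by
    intro a g hg h
    by_contra ha
    have : a • q ∈ span ℝ C := by
      have := sub_mem h hg
      simpa using this
    exact hqC ((Submodule.smul_mem_iff _ ha).1 this)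
  have hswap : ∀ w, w ∈ span ℝ (insert x (insert q T₁)) →
      ∃ a : ℝ, ∃ g ∈ span ℝ (insert x T₁), w = a • q + g := by
    intro w hw
    rw [Set.insert_comm, mem_span_insert] at hw
    exact hw
  refine ⟨insert q T₁, Set.insert_subset hq (hT₁.trans hCS), x, hCS hx, ?_, ?_, y, hCS hy, z,
    hCS hz, ?_, ?_, α, β, α', β', ?_, ?_, hneg⟩
  · intro h
    rw [mem_span_insert] at h
    obtain ⟨a, g, hg, hxe⟩ := h
    have ha : a = 0 := key0 a g (hΓC hg) (hxe ▸ hxC)
    rw [ha, zero_smul, zero_add] at hxe
    exact hxΓ (hxe ▸ hg)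
  · intro w hw hw'
    by_contra hcon
    push Not at hcon
    obtain ⟨hwΛ, hwx⟩ := hcon
    obtain ⟨a, g, hg, hwe⟩ := hswap w hw'
    rw [mem_span_insert] at hg
    obtain ⟨b, γ, hγ, rfl⟩ := hg
    have hb : b ≠ 0 := by
      rintro rfl
      apply hwΛ
      rw [mem_span_insert]
      exact ⟨a, γ, hγ, by rw [hwe]; simp⟩
    have ha : a ≠ 0 := by
      rintro rfl
      have hw2 : w ∈ span ℝ (insert x T₁) := by
        rw [hwe, zero_smul, zero_add]
        exact add_mem (smul_mem _ _ (subset_span (Set.mem_insert _ _)))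
          (span_mono (Set.subset_insert _ _) hγ)
      have hw3 : w ∈ C := hmemC w hw (hΓxC hw2)
      rcases hord w hw3 hw2 with h | h
      · exact hwΛ (span_mono (Set.subset_insert _ _) h)
      · exact hwx h
    -- the key inequality
    have key : ∀ (y : W), y ∈ C → y ∉ span ℝ (insert x T₁) → ∀ α β : ℝ,
        o - t • q - (α • x + β • y) ∈ span ℝ T₁ → |t - α * a / b| ≤ |t| := by
      intro y hy hyΓ α β he
      refine hmax (insert w (insert y T₁))
        (Set.insert_subset hw (Set.insert_subset (hCS hy) (hT₁.trans hCS))) _ ?_ ?_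
      · intro h
        rw [mem_span_insert] at h
        obtain ⟨ν, g, hg, hq'⟩ := h
        rw [mem_span_insert] at hg
        obtain ⟨μ, γ', hγ', rfl⟩ := hg
        -- q = ν w + μ y + γ'
        have hyC : y ∈ span ℝ C := subset_span hy
        have h1 : (ν * a - 1) • q + (ν • (b • x + γ) + (μ • y + γ')) = 0 := by
          have : q = ν • (a • q + (b • x + γ)) + (μ • y + γ') := by rw [← hwe]; exact hq'
          have h2 : (ν * a - 1) • q + (ν • (b • x + γ) + (μ • y + γ')) =
            ν • (a • q + (b • x + γ)) + (μ • y + γ') - q := by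
            rw [sub_smul, mul_smul, one_smul, smul_add ν (a • q)]
            abel
          rw [h2, ← this, sub_self]
        have h3 : ν * a - 1 = 0 := by
          refine key0 _ (ν • (b • x + γ) + (μ • y + γ')) ?_ ?_
          · exact add_mem (smul_mem _ _ (add_mem (smul_mem _ _ hxC) (hΓC hγ)))
              (add_mem (smul_mem _ _ hyC) (hΓC hγ'))
          · rw [h1]; exact zero_mem _
        have hν : ν ≠ 0 := by
          rintro rfl
          simp at h3
        rw [h3, zero_smul, zero_add] at h1
        by_cases hμ : μ = 0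
        · apply hxΓ
          have h4 : (ν * b) • x = -(ν • γ + γ') := by
            rw [hμ, zero_smul, zero_add, smul_add, smul_smul] at h1
            rw [eq_neg_iff_add_eq_zero, ← h1]
            abel
          have h5 : (ν * b) • x ∈ span ℝ T₁ := by
            rw [h4]
            exact neg_mem (add_mem (smul_mem _ _ hγ) hγ')
          exact (Submodule.smul_mem_iff _ (mul_ne_zero hν hb)).1 h5
        · apply hyΓ
          have h4 : μ • y = -(ν • (b • x + γ) + γ') := by
            rw [eq_neg_iff_add_eq_zero, ← h1]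
            abel
          have h5 : μ • y ∈ span ℝ (insert x T₁) := by
            rw [h4]
            have hsub : span ℝ T₁ ≤ span ℝ (insert x T₁) := span_mono (Set.subset_insert _ _)
            exact neg_mem (add_mem (smul_mem _ _ (add_mem (smul_mem _ _
              (subset_span (Set.mem_insert _ _))) (hsub hγ))) (hsub hγ'))
          exact (Submodule.smul_mem_iff _ hμ).1 h5
      · rw [mem_span_insert]
        refine ⟨α / b, o - (t - α * a / b) • q - (α / b) • w, ?_, by abel⟩
        rw [mem_span_insert]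
        refine ⟨β, o - (t - α * a / b) • q - (α / b) • w - β • y, ?_, by abel⟩
        have : o - (t - α * a / b) • q - (α / b) • w - β • y =
          (o - t • q - (α • x + β • y)) - (α / b) • γ := by
          rw [hwe]
          have e3 : (α / b) • (a • q + (b • x + γ)) = (α * a / b) • q + α • x + (α / b) • γ := by
            rw [smul_add, smul_add, smul_smul, smul_smul, div_mul_cancel₀ _ hb,
              div_mul_eq_mul_div, add_assoc]
          rw [e3, sub_smul]
          abel
        rw [this]
        exact sub_mem he (smul_mem _ _ hγ)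
    have k1 := key y hy hyΓ α β e1
    have k2 := key z hz hzΓ α' β' e2
    have hα : α ≠ 0 := by rintro rfl; simp at hneg
    have hα' : α' ≠ 0 := by rintro rfl; simp at hneg
    have hpos : ∀ s : ℝ, s ≠ 0 → |t - s| ≤ |t| → 0 < t * s := by
      intro s hs h
      have h5 : (t - s) ^ 2 ≤ t ^ 2 := sq_le_sq.2 h
      have h6 : 0 < s ^ 2 := by positivity
      nlinarith
    have p1 := hpos _ (div_ne_zero (mul_ne_zero hα ha) hb) k1
    have p2 := hpos _ (div_ne_zero (mul_ne_zero hα' ha) hb) k2
    have p3 := mul_pos p1 p2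
    have e4 : t * (α * a / b) * (t * (α' * a / b)) = (t * a / b) ^ 2 * (α * α') := by ring
    rw [e4] at p3
    have p4 : 0 ≤ (t * a / b) ^ 2 := sq_nonneg _
    nlinarith
  · intro h
    obtain ⟨a, g, hg, hye⟩ := hswap y h
    have ha : a = 0 := key0 a g (hΓxC hg) (hye ▸ subset_span hy)
    rw [ha, zero_smul, zero_add] at hye
    exact hyΓ (hye ▸ hg)
  · intro h
    obtain ⟨a, g, hg, hye⟩ := hswap z h
    have ha : a = 0 := key0 a g (hΓxC hg) (hye ▸ subset_span hz)
    rw [ha, zero_smul, zero_add] at hye
    exact hzΓ (hye ▸ hg)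
  · rw [mem_span_insert]
    exact ⟨t, o - t • q - (α • x + β • y), e1, by abel⟩
  · rw [mem_span_insert]
    exact ⟨t, o - t • q - (α' • x + β' • z), e2, by abel⟩

end Pool.Agent.H232R2
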