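import Mathlib
import Pool.Agent.H232R2.Hansen
import Pool.Agent.H232R2.Faces

set_option autoImplicit false

namespace Pool.Agent.H232R2

open Submodule

variable {m : ℕ}

/-- existence of a generic vector -/
lemma exists_generic_vector (S : Set (Fin m → ℝ)) (hS : S.Finite) (hspan : span ℝ S = ⊤) :
    ∃ o, Generic S o := by
  classical
  have h1 : (𝒫 S).Finite := hS.finite_subsets
  set I : Set (Set (Fin m → ℝ)) := {T | T ∈ 𝒫 S ∧ span ℝ T ≠ ⊤} with hI
  have hIfin : I.Finite := h1.subset (fun T hT => hT.1)
  have : Finite I := hIfin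
  obtain ⟨o, ho⟩ := Submodule.exists_forall_notMem_of_forall_ne_top (fun T : I => span ℝ (T : Set (Fin m → ℝ)))
    (fun T => T.2.2)
  refine ⟨o, by rw [hspan]; trivial, ?_⟩
  intro T hT hoT
  by_contra hne
  refine ho ⟨T, hT, ?_⟩ hoT
  intro h
  exact hne (by rw [h]; exact le_top)

theorem exists_deletion {ι : Type*} [Fintype ι] [DecidableEq ι] (a : ι → Fin m → ℝ)
    (hcard : m < Fintype.card ι)
    (h0 : ∀ i, a i ≠ 0) (hpar : ∀ i j, i ≠ j → ∀ c : ℝ, a i ≠ c • a j)
    (hspan : span ℝ (Set.range a) = ⊤) :
    ∃ i₀ : ι, ∃ p : Fin m → ℝ, p ≠ 0 ∧ dotProduct (a i₀) p = 0 ∧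
      Module.finrank ℝ (span ℝ (a '' {i | i ≠ i₀ ∧ dotProduct (a i) p = 0})) + 2 = m ∧
      a i₀ ∉ span ℝ (a '' {i | i ≠ i₀ ∧ dotProduct (a i) p = 0}) ∧
      span ℝ (a '' {i | i ≠ i₀}) = ⊤ := by
  have hinj : Function.Injective a := by
    intro i j hij
    by_contra hne
    exact hpar i j hne 1 (by rw [hij, one_smul])
  set S : Set (Fin m → ℝ) := Set.range a with hS
  have hSfin : S.Finite := Set.finite_range a
  obtain ⟨o, ho⟩ := exists_generic_vector S hSfin hspan
  have hdep : ¬ LinearIndepOn ℝ id S := by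
    intro h
    have h1 : LinearIndependent ℝ a := by
      have := (linearIndepOn_id_range_iff hinj).1 h
      exact this
    have h2 := h1.fintype_card_le_finrank
    simp at h2
    omega
  obtain ⟨T₀, hT₀, x, hx, hxΛ, hord, y, hy, z, hz, hyΛ, hzΛ, α, β, α', β', e1, e2, hneg⟩ :=
    hansen _ S hSfin rfl (by rintro v ⟨i, rfl⟩; exact h0 i)
      (by
        rintro v ⟨i, rfl⟩ w ⟨j, rfl⟩ hne c
        exact hpar i j (fun h => hne (by rw [h])) c) hdep o ho
  obtain ⟨i₀, rfl⟩ := hx
  -- span of T₀, x, y is everything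
  have htop : span ℝ (insert y (insert (a i₀) T₀)) = ⊤ := by
    rw [eq_top_iff, ← hspan]
    apply ho.2 _ (Set.insert_subset hy (Set.insert_subset ⟨i₀, rfl⟩ hT₀))
    rw [mem_span_insert]
    refine ⟨β, o - β • y, ?_, by abel⟩
    rw [mem_span_insert]
    exact ⟨α, o - (α • a i₀ + β • y), e1, by abel⟩
  have hrank : Module.finrank ℝ (span ℝ T₀) + 2 = m := by
    have r1 : Module.finrank ℝ (span ℝ (insert (a i₀) T₀)) = Module.finrank ℝ (span ℝ T₀) + 1 := by
      rw [span_insert, sup_comm, finrank_sup_span_singleton hxΛ]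
    have r2 : Module.finrank ℝ (span ℝ (insert y (insert (a i₀) T₀))) =
        Module.finrank ℝ (span ℝ (insert (a i₀) T₀)) + 1 := by
      rw [span_insert y, sup_comm, finrank_sup_span_singleton hyΛ]
    rw [htop, finrank_top, Module.finrank_fin_fun, r1] at r2
    omega
  obtain ⟨p, hp0, hp1⟩ := exists_ann _ y hyΛ
  have hxT : a i₀ ∈ span ℝ (insert (a i₀) T₀) := subset_span (Set.mem_insert _ _)
  have hTT : span ℝ T₀ ≤ span ℝ (insert (a i₀) T₀) := span_mono (Set.subset_insert _ _)
  -- the members of S orthogonal to p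
  have horth : ∀ w ∈ S, dotProduct w p = 0 → w ∈ span ℝ T₀ ∨ w = a i₀ := by
    intro w hw hwp
    apply hord w hw
    have h1 : w ∈ span ℝ (insert y (insert (a i₀) T₀)) := by rw [htop]; trivial
    rw [mem_span_insert] at h1
    obtain ⟨c, g, hg, rfl⟩ := h1
    rw [add_dotProduct, smul_dotProduct, hp1, hp0 g hg, smul_eq_mul, mul_one, add_zero] at hwp
    rw [hwp, zero_smul, zero_add]
    exact hg
  have hspanΛ : span ℝ (a '' {i | i ≠ i₀ ∧ dotProduct (a i) p = 0}) = span ℝ T₀ := by
    apply le_antisymm
    · apply span_le.2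
      rintro w ⟨i, ⟨hi, hip⟩, rfl⟩
      rcases horth (a i) ⟨i, rfl⟩ hip with h | h
      · exact h
      · exact absurd (hinj h) hi
    · apply span_mono
      intro w hw
      obtain ⟨i, rfl⟩ := hT₀ hw
      refine ⟨i, ⟨?_, hp0 _ (hTT (subset_span hw))⟩, rfl⟩
      rintro rfl
      exact hxΛ (subset_span hw)
  refine ⟨i₀, p, ?_, hp0 _ hxT, ?_, ?_, ?_⟩
  · rintro rfl
    simp at hp1
  · rw [hspanΛ]; exact hrank
  · rw [hspanΛ]; exact hxΛ
  · -- non-coloop
    have hmem : ∀ w ∈ S, w ≠ a i₀ → w ∈ span ℝ (a '' {i | i ≠ i₀}) := by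
      rintro w ⟨i, rfl⟩ hw
      exact subset_span ⟨i, fun h => hw (by rw [h]), rfl⟩
    have hT₀' : span ℝ T₀ ≤ span ℝ (a '' {i | i ≠ i₀}) := by
      apply span_le.2
      intro w hw
      refine hmem w (hT₀ hw) ?_
      rintro rfl
      exact hxΛ (subset_span hw)
    have hy' := hmem y hy (fun h => hyΛ (h ▸ hxT))
    have hz' := hmem z hz (fun h => hzΛ (h ▸ hxT))
    have hne : α - α' ≠ 0 := by
      intro h
      have : α = α' := by linarith
      rw [this] at hneg
      nlinarith [mul_self_nonneg α']
    have hx' : a i₀ ∈ span ℝ (a '' {i | i ≠ i₀}) := by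
      have e3 : (α - α') • a i₀ = (o - (α' • a i₀ + β' • z)) - (o - (α • a i₀ + β • y))
          + β' • z - β • y := by
        rw [sub_smul]; abel
      have h4 : (α - α') • a i₀ ∈ span ℝ (a '' {i | i ≠ i₀}) := by
        rw [e3]
        exact sub_mem (add_mem (sub_mem (hT₀' e2) (hT₀' e1)) (smul_mem _ _ hz')) (smul_mem _ _ hy')
      exact (Submodule.smul_mem_iff _ hne).1 h4
    rw [eq_top_iff, ← hspan]
    apply span_le.2
    rintro w ⟨i, rfl⟩
    by_cases h : i = i₀
    · rw [h]; exact hx'
    · exact subset_span ⟨i, h, rfl⟩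

/-- number of sign vectors with exactly `ρ` zeros -/
lemma ncard_zeros {κ : Type*} [Fintype κ] (ρ : ℕ) :
    ({μ : κ → SignType | {k | μ k = 0}.ncard = ρ} : Set (κ → SignType)).ncard =
      (Fintype.card κ).choose ρ * 2 ^ (Fintype.card κ - ρ) := by
  classical
  have h1 : ({μ : κ → SignType | {k | μ k = 0}.ncard = ρ} : Set (κ → SignType)) =
      ((Finset.univ.filter (fun μ : κ → SignType =>
        (Finset.univ.filter (fun k => μ k = 0)).card = ρ) : Finset (κ → SignType)) :
          Set (κ → SignType)) := by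
    ext μ
    rw [Finset.mem_coe, Finset.mem_filter]
    simp only [Set.mem_ofPred_eq, Finset.mem_univ, true_and]
    have : {k | μ k = 0} = ((Finset.univ.filter (fun k => μ k = 0) : Finset κ) : Set κ) := by
      ext k; simp
    rw [this, Set.ncard_coe_finset]
  rw [h1, Set.ncard_coe_finset]
  rw [Finset.card_eq_sum_card_fiberwise (f := fun μ : κ → SignType =>
    Finset.univ.filter (fun k => μ k = 0)) (t := Finset.powersetCard ρ Finset.univ)]
  · have h2 : ∀ A ∈ Finset.powersetCard ρ (Finset.univ : Finset κ),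
        ((Finset.univ.filter (fun μ : κ → SignType =>
          (Finset.univ.filter (fun k => μ k = 0)).card = ρ)).filter
            (fun μ => Finset.univ.filter (fun k => μ k = 0) = A)).card
          = 2 ^ (Fintype.card κ - ρ) := by
      intro A hA
      rw [Finset.mem_powersetCard] at hA
      have h3 : ((Finset.univ.filter (fun μ : κ → SignType =>
          (Finset.univ.filter (fun k => μ k = 0)).card = ρ)).filter
            (fun μ => Finset.univ.filter (fun k => μ k = 0) = A)) =
          Fintype.piFinset (fun k => if k ∈ A then ({0} : Finset SignType) else {1, -1}) := by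
        ext μ
        simp only [Finset.mem_filter, Finset.mem_univ, true_and, Fintype.mem_piFinset]
        constructor
        · rintro ⟨_, h⟩ k
          by_cases hk : k ∈ A
          · rw [if_pos hk, Finset.mem_singleton]
            rw [← h] at hk
            simpa using hk
          · rw [if_neg hk]
            rw [← h] at hk
            simp only [Finset.mem_filter, Finset.mem_univ, true_and] at hk
            cases hμ : μ k
            · exact absurd hμ hk
            · decide
            · decide
        · intro h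
          have h4 : Finset.univ.filter (fun k => μ k = 0) = A := by
            ext k
            simp only [Finset.mem_filter, Finset.mem_univ, true_and]
            have := h k
            constructor
            · intro h0
              by_contra hk
              rw [if_neg hk, h0] at this
              revert this; decide
            · intro hk
              rw [if_pos hk, Finset.mem_singleton] at this
              exact this
          exact ⟨by rw [h4]; exact hA.2, h4⟩
      rw [h3, Fintype.card_piFinset]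
      have h5 : ∀ k : κ, (if k ∈ A then ({0} : Finset SignType) else {1, -1}).card =
          if k ∈ A then 1 else 2 := by
        intro k
        split_ifs
        · rfl
        · decide
      simp only [h5]
      rw [Finset.prod_ite, Finset.prod_const_one, one_mul, Finset.prod_const]
      congr 1
      have h6 : Finset.univ.filter (fun k => k ∉ A) = Aᶜ := by
        ext k; simp
      rw [h6, Finset.card_compl, hA.2]
    rw [Finset.sum_congr rfl h2, Finset.sum_const, Finset.card_powersetCard, Finset.card_univ,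
      smul_eq_mul]
  · intro μ hμ
    rw [Finset.mem_coe, Finset.mem_filter] at hμ
    rw [Finset.mem_coe, Finset.mem_powersetCard]
    exact ⟨Finset.subset_univ _, hμ.2⟩


/-- local faces at an ordinary vertex -/
lemma exists_local {ι : Type*} [Finite ι] (a : ι → Fin m → ℝ) (v : Fin m → ℝ) (K : Set ι)
    (hK : LinearIndepOn ℝ a K) (hv : v ∉ span ℝ (a '' K)) (μ : K → SignType) :
    ∃ u : Fin m → ℝ, dotProduct v u = 0 ∧ (∀ k : K, SignType.sign (dotProduct (a k) u) = μ k) ∧
      ∀ i, a i ∈ span ℝ (a '' K) → dotProduct (a i) u = 0 →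
        a i ∈ span ℝ ((fun k : K => a k) '' {k | μ k = 0}) := by
  classical
  set Γ : Submodule ℝ (Fin m → ℝ) := span ℝ ((fun k : K => a k) '' {k | μ k = 0}) with hΓ
  have hΓK : Γ ≤ span ℝ (a '' K) := by
    apply span_mono
    rintro w ⟨k, _, rfl⟩
    exact ⟨k, k.2, rfl⟩
  -- the subspace U
  let U : Submodule ℝ (Fin m → ℝ) :=
    { carrier := {u | dotProduct v u = 0 ∧ ∀ k : K, μ k = 0 → dotProduct (a k) u = 0}
      add_mem' := by
        rintro x y ⟨hx, hx'⟩ ⟨hy, hy'⟩
        refine ⟨by rw [dotProduct_add, hx, hy, add_zero], fun k hk => ?_⟩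
        rw [dotProduct_add, hx' k hk, hy' k hk, add_zero]
      zero_mem' := by
        refine ⟨by simp, fun k _ => by simp⟩
      smul_mem' := by
        rintro c x ⟨hx, hx'⟩
        refine ⟨by rw [dotProduct_smul, hx, smul_zero], fun k hk => ?_⟩
        rw [dotProduct_smul, hx' k hk, smul_zero] }
  let I : Type _ := {i : ι // a i ∈ span ℝ (a '' K) ∧ a i ∉ Γ}
  have hw : ∃ w ∈ U, ∀ i : I, dotProductEquiv ℝ (Fin m) (a i.1) w ≠ 0 := by
    apply Module.Dual.exists_forall_mem_ne_zero_of_forall_exists U
      (fun i : I => dotProductEquiv ℝ (Fin m) (a i.1))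
    rintro ⟨i, hi, hiΓ⟩
    have h1 : a i ∉ Γ ⊔ span ℝ {v} := by
      intro h
      rw [Submodule.mem_sup] at h
      obtain ⟨g, hg, z, hz, he⟩ := h
      rw [mem_span_singleton] at hz
      obtain ⟨c, rfl⟩ := hz
      by_cases hc : c = 0
      · rw [hc, zero_smul, add_zero] at he
        exact hiΓ (he ▸ hg)
      · apply hv
        have : c • v ∈ span ℝ (a '' K) := by
          have h2 : c • v = a i - g := by rw [← he]; abel
          rw [h2]
          exact sub_mem hi (hΓK hg)
        exact (Submodule.smul_mem_iff _ hc).1 this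
    obtain ⟨u, hu0, hu1⟩ := exists_ann _ _ h1
    refine ⟨u, ⟨?_, ?_⟩, ?_⟩
    · exact hu0 v (Submodule.mem_sup_right (mem_span_singleton_self v))
    · intro k hk
      exact hu0 _ (Submodule.mem_sup_left (subset_span ⟨k, hk, rfl⟩))
    · show dotProduct (a i) u ≠ 0
      rw [hu1]; exact one_ne_zero
  obtain ⟨w, ⟨hwv, hwK⟩, hwI⟩ := hw
  -- base vector
  have hli : LinearIndependent ℝ (fun o : Option K => o.elim v (fun k => a k)) := by
    rw [linearIndependent_option]
    refine ⟨hK, ?_⟩
    have : Set.range ((fun o : Option K => o.elim v (fun k => a k)) ∘ some) = a '' K := by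
      ext w
      constructor
      · rintro ⟨k, rfl⟩
        exact ⟨k, k.2, rfl⟩
      · rintro ⟨i, hi, rfl⟩
        exact ⟨⟨i, hi⟩, rfl⟩
    rw [this]
    exact hv
  obtain ⟨u₀, hu₀⟩ := exists_values _ hli (fun o : Option K => o.elim 0 (fun k => ((μ k : SignType) : ℝ)))
  have hu₀v : dotProduct v u₀ = 0 := hu₀ none
  have hu₀K : ∀ k : K, dotProduct (a k) u₀ = ((μ k : SignType) : ℝ) := fun k => hu₀ (some k)
  obtain ⟨ε, hε, he⟩ := exists_eps (fun i => dotProduct (a i) u₀) (fun i => dotProduct (a i) w)
  have hsign : ∀ i, SignType.sign (dotProduct (a i) (u₀ + ε • w)) =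
      if dotProduct (a i) u₀ = 0 then SignType.sign (dotProduct (a i) w)
      else SignType.sign (dotProduct (a i) u₀) := by
    intro i
    rw [dotProduct_add, dotProduct_smul, smul_eq_mul]
    exact he i
  refine ⟨u₀ + ε • w, ?_, ?_, ?_⟩
  · rw [dotProduct_add, dotProduct_smul, hu₀v, hwv]; simp
  · intro k
    rw [hsign, hu₀K]
    by_cases hk : μ k = 0
    · rw [hwK k hk, hk]; simp
    · rw [if_neg]
      · cases hμ : μ k
        · exact absurd hμ hk
        · simp
        · simp
      · cases hμ : μ k
        · exact absurd hμ hk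
        · simp
        · simp
  · intro i hi h0
    by_contra hiΓ
    have h1 : dotProduct (a i) w ≠ 0 := hwI ⟨i, hi, hiΓ⟩
    have h2 := hsign i
    rw [h0, sign_zero] at h2
    split_ifs at h2 with h3
    · exact h1 (sign_eq_zero_iff.1 h2.symm)
    · exact h3 (sign_eq_zero_iff.1 h2.symm)

theorem cut_lower {ι : Type*} [Finite ι] (a : ι → Fin m → ℝ) (v p : Fin m → ℝ) (r : ℕ)
    (hr : Module.finrank ℝ (span ℝ (a '' {i | dotProduct (a i) p = 0})) = r)
    (hvp : dotProduct v p = 0) (hv : v ∉ span ℝ (a '' {i | dotProduct (a i) p = 0}))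
    (i₁ : ι) (hi₁ : dotProduct (a i₁) p ≠ 0) (ρ : ℕ) :
    2 * (r.choose ρ * 2 ^ (r - ρ)) ≤ (cut a v ρ).ncard := by
  classical
  obtain ⟨K, hKsub, _, hKspan, hKli⟩ := exists_linearIndepOn_extension
    (linearIndepOn_empty ℝ a) (Set.empty_subset {i | dotProduct (a i) p = 0})
  have hspanK : span ℝ (a '' K) = span ℝ (a '' {i | dotProduct (a i) p = 0}) := by
    apply le_antisymm
    · exact span_mono (Set.image_mono hKsub)
    · exact span_le.2 hKspan
  have hKfin : Finite K := inferInstance
  let _ : Fintype K := Fintype.ofFinite K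
  have hKcard : Fintype.card K = r := by
    rw [← hr, ← hspanK]
    have h1 : LinearIndependent ℝ (fun k : K => a k) := hKli
    have h2 : a '' K = Set.range (fun k : K => a k) := by
      ext w
      constructor
      · rintro ⟨i, hi, rfl⟩
        exact ⟨⟨i, hi⟩, rfl⟩
      · rintro ⟨k, rfl⟩
        exact ⟨k, k.2, rfl⟩
    rw [h2, finrank_span_eq_card h1]
  have hloc := fun μ : K → SignType => exists_local a v K hKli (by rw [hspanK]; exact hv) μ
  choose u hu1 hu2 hu3 using hloc
  -- the sign s
  let sg : Bool → ℝ := fun b => if b then 1 else -1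
  have hsg : ∀ b, sg b ≠ 0 := by intro b; cases b <;> simp [sg]
  have hex : ∀ q : Bool × (K → SignType), ∃ ε : ℝ, 0 < ε ∧ ∀ i,
      SignType.sign (sg q.1 * dotProduct (a i) p + ε * dotProduct (a i) (u q.2)) =
      if sg q.1 * dotProduct (a i) p = 0 then SignType.sign (dotProduct (a i) (u q.2))
      else SignType.sign (sg q.1 * dotProduct (a i) p) :=
    fun q => exists_eps (fun i => sg q.1 * dotProduct (a i) p) (fun i => dotProduct (a i) (u q.2))
  choose ε hε he using hex
  let F : Bool × (K → SignType) → (ι → SignType) := fun q i =>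
    SignType.sign (dotProduct (a i) (sg q.1 • p + ε q • u q.2))
  have hF : ∀ q i, F q i = if dotProduct (a i) p = 0 then SignType.sign (dotProduct (a i) (u q.2))
      else SignType.sign (sg q.1 * dotProduct (a i) p) := by
    intro q i
    show SignType.sign (dotProduct (a i) (sg q.1 • p + ε q • u q.2)) = _
    rw [dotProduct_add, dotProduct_smul, dotProduct_smul, smul_eq_mul, smul_eq_mul, he q i]
    have : (sg q.1 * dotProduct (a i) p = 0) ↔ (dotProduct (a i) p = 0) := by
      simp [hsg q.1]
    simp only [this]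
  have hFK : ∀ q (k : K), F q k = q.2 k := by
    intro q k
    have h0 : dotProduct (a k) p = 0 := hKsub k.2
    rw [hF, if_pos h0, hu2]
  have hFinj : Function.Injective F := by
    intro q q' h
    have h2 : q.2 = q'.2 := by
      funext k
      rw [← hFK q k, ← hFK q' k, h]
    have h1 : q.1 = q'.1 := by
      have h3 := congrFun h i₁
      rw [hF, hF, if_neg hi₁, if_neg hi₁] at h3
      cases hq : q.1 <;> cases hq' : q'.1 <;> simp only [hq, hq', sg] at h3 ⊢
      · simp only [Bool.false_eq_true, if_false, if_true, neg_mul, one_mul] at h3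
        rcases lt_or_gt_of_ne hi₁ with h4 | h4
        · rw [sign_neg h4, sign_pos (by linarith)] at h3
          exact absurd h3 (by decide)
        · rw [sign_pos h4, sign_neg (by linarith)] at h3
          exact absurd h3 (by decide)
      · simp only [Bool.false_eq_true, if_false, if_true, neg_mul, one_mul] at h3
        rcases lt_or_gt_of_ne hi₁ with h4 | h4
        · rw [sign_neg h4, sign_pos (by linarith)] at h3
          exact absurd h3 (by decide)
        · rw [sign_pos h4, sign_neg (by linarith)] at h3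
          exact absurd h3 (by decide)
    exact Prod.ext h1 h2
  have hmem : ∀ q : Bool × (K → SignType), {k | q.2 k = 0}.ncard = ρ → F q ∈ cut a v ρ := by
    intro q hq
    have hZ : span ℝ (a '' {i | F q i = 0}) = span ℝ ((fun k : K => a k) '' {k | q.2 k = 0}) := by
      apply le_antisymm
      · apply span_le.2
        rintro w ⟨i, hi, rfl⟩
        have hi' : F q i = 0 := hi
        rw [hF] at hi'
        split_ifs at hi' with h0
        · refine hu3 q.2 i ?_ (sign_eq_zero_iff.1 hi')
          rw [hspanK]
          exact subset_span ⟨i, h0, rfl⟩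
        · exact absurd (sign_eq_zero_iff.1 hi') (mul_ne_zero (hsg _) h0)
      · apply span_mono
        rintro w ⟨k, hk, rfl⟩
        refine ⟨k, ?_, rfl⟩
        show F q k = 0
        rw [hFK]; exact hk
    refine ⟨?_, ?_, sg q.1 • p + ε q • u q.2, fun i => rfl, ?_⟩
    · rw [hZ]
      intro h
      apply hv
      rw [← hspanK]
      refine span_mono ?_ h
      rintro w ⟨k, _, rfl⟩
      exact ⟨k, k.2, rfl⟩
    · rw [hZ, ← hq]
      have h1 : LinearIndependent ℝ (fun k : {k : K | q.2 k = 0} => a (k : K)) :=
        LinearIndependent.comp hKli (fun k : {k : K | q.2 k = 0} => (k : K)) Subtype.val_injective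
      have h2 := finrank_span_eq_card h1
      have h3 : (fun k : K => a k) '' {k | q.2 k = 0} =
          Set.range (fun k : {k : K | q.2 k = 0} => a (k : K)) := by
        ext w
        constructor
        · rintro ⟨i, hi, rfl⟩
          exact ⟨⟨i, hi⟩, rfl⟩
        · rintro ⟨k, rfl⟩
          exact ⟨k, k.2, rfl⟩
      rw [h3, h2, ← Nat.card_coe_set_eq, Nat.card_eq_fintype_card]
    · rw [dotProduct_add, dotProduct_smul, dotProduct_smul, hvp, hu1]; simp
  have hcount : (Set.univ ×ˢ {μ : K → SignType | {k | μ k = 0}.ncard = ρ} :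
      Set (Bool × (K → SignType))).ncard = 2 * (r.choose ρ * 2 ^ (r - ρ)) := by
    rw [Set.ncard_prod, ncard_zeros, hKcard]
    simp
  rw [← hcount]
  apply Set.ncard_le_ncard_of_injOn F
  · rintro q ⟨_, hq⟩
    exact hmem q hq
  · exact hFinj.injOn

end Pool.Agent.H232R2
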