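import Mathlib
import Pool.Agent.H232R2.Deletion

set_option autoImplicit false

namespace Pool.Agent.H232R2

open Submodule

variable {m : ℕ}

/-- face numbers of a linearly independent family -/
lemma ncard_faces_indep {ι : Type*} [Fintype ι] (a : ι → Fin m → ℝ) (ha : LinearIndependent ℝ a)
    (ρ : ℕ) : (faces a ρ).ncard = (Fintype.card ι).choose ρ * 2 ^ (Fintype.card ι - ρ) := by
  classical
  rw [← ncard_zeros (κ := ι) ρ]
  congr 1
  ext σ
  have hrk : Module.finrank ℝ (span ℝ (a '' {i | σ i = 0})) = {i | σ i = 0}.ncard := by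
    have h1 : LinearIndependent ℝ (fun k : {k : ι | σ k = 0} => a (k : ι)) :=
      LinearIndependent.comp ha (fun k : {k : ι | σ k = 0} => (k : ι)) Subtype.val_injective
    have h2 := finrank_span_eq_card h1
    have h3 : a '' {i | σ i = 0} = Set.range (fun k : {k : ι | σ k = 0} => a (k : ι)) := by
      ext w
      constructor
      · rintro ⟨i, hi, rfl⟩
        exact ⟨⟨i, hi⟩, rfl⟩
      · rintro ⟨k, rfl⟩
        exact ⟨k, k.2, rfl⟩
    rw [h3, h2, ← Nat.card_coe_set_eq, Nat.card_eq_fintype_card]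
  constructor
  · rintro ⟨_, hr⟩
    rw [hrk] at hr
    exact hr
  · intro hr
    refine ⟨?_, by rw [hrk]; exact hr⟩
    obtain ⟨u, hu⟩ := exists_values a ha (fun i => ((σ i : SignType) : ℝ))
    refine ⟨u, fun i => ?_⟩
    rw [hu i]
    cases σ i <;> simp

/-- the extremal number -/
def LB (m n ρ : ℕ) : ℕ :=
  m.choose ρ * 2 ^ (m - ρ) + (n - m) * (2 * ((m - 2).choose ρ * 2 ^ (m - 2 - ρ)) +
    if ρ = 0 then 0 else 2 * ((m - 2).choose (ρ - 1) * 2 ^ (m - 2 - (ρ - 1))))

lemma LB_succ (m n ρ : ℕ) (h : m ≤ n) : LB m (n + 1) ρ = LB m n ρ +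
    (2 * ((m - 2).choose ρ * 2 ^ (m - 2 - ρ)) +
    if ρ = 0 then 0 else 2 * ((m - 2).choose (ρ - 1) * 2 ^ (m - 2 - (ρ - 1)))) := by
  unfold LB
  rw [Nat.succ_sub h, Nat.succ_mul]
  omega

theorem lower_bound (m : ℕ) : ∀ n, m ≤ n → ∀ a : Fin n → Fin m → ℝ,
    (∀ i, a i ≠ 0) → (∀ i j, i ≠ j → ∀ c : ℝ, a i ≠ c • a j) → span ℝ (Set.range a) = ⊤ →
    ∀ ρ, LB m n ρ ≤ (faces a ρ).ncard := by
  intro n hn
  induction n, hn using Nat.le_induction with
  | base =>
    intro a h0 hpar hspan ρ
    have hli : LinearIndependent ℝ a := by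
      apply linearIndependent_of_top_le_span_of_card_eq_finrank
      · rw [hspan]
      · simp
    rw [ncard_faces_indep a hli ρ]
    simp [LB]
  | succ n hn IH =>
    intro a h0 hpar hspan ρ
    obtain ⟨i₀, p, hp, hi₀p, hrank, hnot, hspan'⟩ := exists_deletion a (by simp; omega) h0 hpar hspan
    set e : Fin (n + 1) ≃ Option (Fin n) := finSuccEquiv' i₀ with he
    set b : Option (Fin n) → Fin m → ℝ := a ∘ e.symm with hb
    have hab : a = b ∘ e := by
      funext i
      simp [hb]
    set a' : Fin n → Fin m → ℝ := fun i => b (some i) with ha'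
    have ha'i : ∀ i, a' i = a (i₀.succAbove i) := by
      intro i
      simp [ha', hb, he]
    have hbn : b none = a i₀ := by simp [hb, he]
    have himg : ∀ P : (Fin m → ℝ) → Prop, a' '' {i | P (a' i)} = a '' {i | i ≠ i₀ ∧ P (a i)} := by
      intro P
      ext w
      constructor
      · rintro ⟨i, hi, rfl⟩
        have hi' : P (a' i) := hi
        rw [ha'i] at hi' ⊢
        exact ⟨i₀.succAbove i, ⟨Fin.succAbove_ne _ _, hi'⟩, rfl⟩
      · rintro ⟨i, ⟨hi, hPi⟩, rfl⟩
        obtain ⟨j, rfl⟩ := Fin.exists_succAbove_eq hi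
        refine ⟨j, ?_, ha'i j⟩
        show P (a' j)
        rw [ha'i]; exact hPi
    have hspan2 : span ℝ (Set.range a') = ⊤ := by
      rw [← hspan']
      congr 1
      have := himg (fun _ => True)
      simpa using this
    have hrec := faces_recursion b ρ
    rw [← ncard_faces_reindex b e ρ, ← hab, ← ha'] at hrec
    have h1 := IH a' (fun i => by rw [ha'i]; exact h0 _)
      (fun i j hij c => by
        rw [ha'i, ha'i]
        exact hpar _ _ (fun h => hij (Fin.succAbove_right_injective h)) c) hspan2 ρ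
    have hi₁ : ∃ i₁, dotProduct (a' i₁) p ≠ 0 := by
      by_contra hcon
      push Not at hcon
      apply hp
      have : p ∈ span ℝ (Set.range a') := by rw [hspan2]; trivial
      have h2 := dot_span_zero (x := p) (by rintro z ⟨i, rfl⟩; exact hcon i) this
      exact dotProduct_self_eq_zero.1 h2
    obtain ⟨i₁, hi₁⟩ := hi₁
    have hset := himg (fun w => dotProduct w p = 0)
    have hcut := fun ρ => cut_lower a' (b none) p (m - 2) (by rw [hset]; omega)
      (by rw [hbn]; exact hi₀p) (by rw [hset, hbn]; exact hnot) i₁ hi₁ ρ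
    rw [hrec, LB_succ m n ρ hn]
    have hc1 := hcut ρ
    by_cases hρ : ρ = 0
    · simp only [hρ, if_true] at *
      omega
    · simp only [hρ, if_false] at *
      have hc2 := hcut (ρ - 1)
      omega


/-! ### The near-pencil -/

/-- vectors of the near-pencil in `ℝ^(r+2)` -/
noncomputable def np (r : ℕ) (i : ℕ) : Fin (r + 2) → ℝ :=
  if h : i < r + 2 then Pi.single ⟨i, h⟩ 1 else
    Pi.single ⟨0, by omega⟩ 1 + (i : ℝ) • Pi.single ⟨1, by omega⟩ 1

lemma np_lt_dot (r i : ℕ) (h : i < r + 2) (x : Fin (r + 2) → ℝ) :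
    dotProduct (np r i) x = x ⟨i, h⟩ := by
  simp [np, h]

lemma np_ge_dot (r i : ℕ) (h : ¬ i < r + 2) (x : Fin (r + 2) → ℝ) :
    dotProduct (np r i) x = x ⟨0, by omega⟩ + (i : ℝ) * x ⟨1, by omega⟩ := by
  simp [np, h]

lemma np_ne_zero (r i : ℕ) : np r i ≠ 0 := by
  intro h
  by_cases hi : i < r + 2
  · have h1 := np_lt_dot r i hi (fun _ => 1)
    rw [h] at h1
    simp at h1
  · have h1 := np_ge_dot r i hi (Pi.single ⟨0, by omega⟩ 1)
    rw [h] at h1
    simp at h1

lemma np_par (r i j : ℕ) (hij : i ≠ j) (c : ℝ) : np r i ≠ c • np r j := by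
  intro h
  have key : ∀ x, dotProduct (np r i) x = c * dotProduct (np r j) x := by
    intro x
    rw [h, smul_dotProduct, smul_eq_mul]
  by_cases hi : i < r + 2
  · by_cases hj : j < r + 2
    · have h1 := key (Pi.single ⟨i, hi⟩ 1)
      rw [np_lt_dot r i hi, np_lt_dot r j hj] at h1
      rw [Pi.single_eq_same, Pi.single_eq_of_ne] at h1
      · simp at h1
      · intro h2
        exact hij (Fin.mk.inj_iff.1 h2).symm
    · have hj0 : (j : ℝ) ≠ 0 := by
        have : j ≠ 0 := by omega
        exact_mod_cast this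
      have h0 := key (Pi.single ⟨0, by omega⟩ 1)
      have h1 := key (Pi.single ⟨1, by omega⟩ 1)
      have h2 := key (Pi.single ⟨i, hi⟩ 1)
      rw [np_lt_dot r i hi, np_ge_dot r j hj] at h0 h1 h2
      by_cases hi0 : i = 0
      · subst hi0
        simp at h0 h1
        rcases h1 with h1 | h1
        · rw [h1] at h0; exact one_ne_zero h0
        · omega
      · have : (Pi.single (⟨0, by omega⟩ : Fin (r + 2)) (1 : ℝ) : Fin (r + 2) → ℝ) ⟨i, hi⟩ = 0 := by
          rw [Pi.single_eq_of_ne]
          intro h3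
          exact hi0 (Fin.mk.inj_iff.1 h3)
        rw [this] at h0
        have hc : c = 0 := by
          have h4 : (Pi.single (⟨0, by omega⟩ : Fin (r + 2)) (1 : ℝ) : Fin (r + 2) → ℝ) ⟨1, by omega⟩ = 0 := by
            rw [Pi.single_eq_of_ne]
            intro h3
            exact one_ne_zero (Fin.mk.inj_iff.1 h3)
          rw [h4, Pi.single_eq_same] at h0
          simpa using h0.symm
        rw [hc] at h2
        simp at h2
  · by_cases hj : j < r + 2
    · have h0 := key (Pi.single ⟨0, by omega⟩ 1)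
      have h1 := key (Pi.single ⟨1, by omega⟩ 1)
      rw [np_ge_dot r i hi, np_lt_dot r j hj] at h0 h1
      have hi0 : (i : ℝ) ≠ 0 := by
        have : i ≠ 0 := by omega
        exact_mod_cast this
      by_cases hj0 : j = 0
      · subst hj0
        have h4 : (Pi.single (⟨1, by omega⟩ : Fin (r + 2)) (1 : ℝ) : Fin (r + 2) → ℝ) ⟨0, by omega⟩ = 0 := by
          rw [Pi.single_eq_of_ne]
          intro h3
          exact zero_ne_one (Fin.mk.inj_iff.1 h3)
        rw [h4, Pi.single_eq_same] at h1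
        simp at h1
        omega
      · have h4 : (Pi.single (⟨1, by omega⟩ : Fin (r + 2)) (1 : ℝ) : Fin (r + 2) → ℝ) ⟨0, by omega⟩ = 0 := by
          rw [Pi.single_eq_of_ne]
          intro h3
          exact zero_ne_one (Fin.mk.inj_iff.1 h3)
        have h5 : (Pi.single (⟨0, by omega⟩ : Fin (r + 2)) (1 : ℝ) : Fin (r + 2) → ℝ) ⟨1, by omega⟩ = 0 := by
          rw [Pi.single_eq_of_ne]
          intro h3
          exact one_ne_zero (Fin.mk.inj_iff.1 h3)
        have h6 : (Pi.single (⟨0, by omega⟩ : Fin (r + 2)) (1 : ℝ) : Fin (r + 2) → ℝ) ⟨j, hj⟩ = 0 := by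
          rw [Pi.single_eq_of_ne]
          intro h3
          exact hj0 (Fin.mk.inj_iff.1 h3)
        rw [h5, h6, Pi.single_eq_same] at h0
        simp at h0
    · have h0 := key (Pi.single ⟨0, by omega⟩ 1)
      have h1 := key (Pi.single ⟨1, by omega⟩ 1)
      rw [np_ge_dot r i hi, np_ge_dot r j hj] at h0 h1
      have h4 : (Pi.single (⟨1, by omega⟩ : Fin (r + 2)) (1 : ℝ) : Fin (r + 2) → ℝ) ⟨0, by omega⟩ = 0 := by
        rw [Pi.single_eq_of_ne]
        intro h3
        exact zero_ne_one (Fin.mk.inj_iff.1 h3)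
      have h5 : (Pi.single (⟨0, by omega⟩ : Fin (r + 2)) (1 : ℝ) : Fin (r + 2) → ℝ) ⟨1, by omega⟩ = 0 := by
        rw [Pi.single_eq_of_ne]
        intro h3
        exact one_ne_zero (Fin.mk.inj_iff.1 h3)
      rw [h5, Pi.single_eq_same] at h0
      rw [h4, Pi.single_eq_same] at h1
      have hc : c = 1 := by linarith
      rw [hc] at h1
      apply hij
      have : (i : ℝ) = j := by linarith
      exact_mod_cast this

lemma np_ker (r n : ℕ) (hn : r + 2 ≤ n) (x : Fin (r + 2) → ℝ)
    (hx : ∀ i : Fin n, dotProduct (np r i) x = 0) : x = 0 := by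
  funext i
  have h := hx ⟨i, lt_of_lt_of_le i.2 hn⟩
  rw [np_lt_dot r i i.2] at h
  exact h

/-- a family without common zero spans -/
lemma span_of_ker {ι : Type*} (a : ι → Fin m → ℝ)
    (h : ∀ x : Fin m → ℝ, (∀ i, dotProduct (a i) x = 0) → x = 0) : span ℝ (Set.range a) = ⊤ := by
  by_contra hne
  obtain ⟨v, hv⟩ : ∃ v, v ∉ span ℝ (Set.range a) := by
    by_contra hcon
    push Not at hcon
    exact hne (eq_top_iff.2 (fun v _ => hcon v))
  obtain ⟨u, hu0, hu1⟩ := exists_ann _ v hv
  have : u = 0 := h u (fun i => hu0 _ (subset_span ⟨i, rfl⟩))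
  rw [this] at hu1
  simp at hu1

/-- the cut faces of the near-pencil -/
lemma cut_np (r n ρ : ℕ) (hn : r + 2 ≤ n) :
    (cut (fun i : Fin n => np r i) (np r n) ρ).ncard ≤ 2 * (r.choose ρ * 2 ^ (r - ρ)) := by
  classical
  have h0n : 0 < n := by omega
  have h1n : 1 < n := by omega
  set G : (Fin n → SignType) → SignType × (Fin r → SignType) :=
    fun τ => (τ ⟨1, h1n⟩, fun l => τ ⟨l + 2, by omega⟩) with hG
  have hcount : (({1, -1} : Set SignType) ×ˢ {μ : Fin r → SignType | {k | μ k = 0}.ncard = ρ} :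
      Set (SignType × (Fin r → SignType))).ncard = 2 * (r.choose ρ * 2 ^ (r - ρ)) := by
    rw [Set.ncard_prod, ncard_zeros, Fintype.card_fin]
    congr 1
    rw [Set.ncard_pair]
    decide
  rw [← hcount]
  -- description of the elements of the cut
  have hdesc : ∀ τ ∈ cut (fun i : Fin n => np r i) (np r n) ρ,
      τ ⟨1, h1n⟩ ≠ 0 ∧ τ ⟨0, h0n⟩ = - τ ⟨1, h1n⟩ ∧
      (∀ i : Fin n, r + 2 ≤ (i : ℕ) → τ i = - τ ⟨1, h1n⟩) := by
    rintro τ ⟨hv, _, x, hx, hvx⟩
    rw [np_ge_dot r n (by omega)] at hvx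
    have e0 : τ ⟨0, h0n⟩ = SignType.sign (x ⟨0, by omega⟩) := by
      rw [← hx ⟨0, h0n⟩, np_lt_dot r 0 (by omega)]
    have e1 : τ ⟨1, h1n⟩ = SignType.sign (x ⟨1, by omega⟩) := by
      rw [← hx ⟨1, h1n⟩, np_lt_dot r 1 (by omega)]
    have hnpos : (0 : ℝ) < n := by exact_mod_cast h0n
    have hx0 : x ⟨0, by omega⟩ = - ((n : ℝ) * x ⟨1, by omega⟩) := by linarith
    refine ⟨?_, ?_, ?_⟩
    · intro h
      apply hv
      rw [e1] at h
      have h1 : x ⟨1, by omega⟩ = 0 := sign_eq_zero_iff.1 h
      have h2 : x ⟨0, by omega⟩ = 0 := by rw [hx0, h1]; simp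
      have m0 : (Pi.single ⟨0, by omega⟩ 1 : Fin (r + 2) → ℝ) ∈
          span ℝ ((fun i : Fin n => np r i) '' {i | τ i = 0}) := by
        apply subset_span
        refine ⟨⟨0, h0n⟩, ?_, ?_⟩
        · show τ ⟨0, h0n⟩ = 0
          rw [e0, h2, sign_zero]
        · simp [np]
      have m1 : (Pi.single ⟨1, by omega⟩ 1 : Fin (r + 2) → ℝ) ∈
          span ℝ ((fun i : Fin n => np r i) '' {i | τ i = 0}) := by
        apply subset_span
        refine ⟨⟨1, h1n⟩, ?_, ?_⟩
        · show τ ⟨1, h1n⟩ = 0
          rw [e1, h1, sign_zero]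
        · simp [np]
      have : np r n = Pi.single ⟨0, by omega⟩ 1 + (n : ℝ) • Pi.single ⟨1, by omega⟩ 1 := by
        simp [np, show ¬ n < r + 2 by omega]
      rw [this]
      exact add_mem m0 (smul_mem _ _ m1)
    · rw [e0, e1, hx0, Left.sign_neg, sign_mul, sign_pos hnpos, one_mul]
    · intro i hi
      have hi' : ¬ (i : ℕ) < r + 2 := by omega
      rw [← hx i, np_ge_dot r i hi', e1, hx0]
      have hlt : (0 : ℝ) < n - (i : ℕ) := by
        have : (i : ℕ) < n := i.2
        have : ((i : ℕ) : ℝ) < n := by exact_mod_cast this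
        linarith
      have e2 : -((n : ℝ) * x ⟨1, by omega⟩) + ((i : ℕ) : ℝ) * x ⟨1, by omega⟩ =
          - (((n : ℝ) - (i : ℕ)) * x ⟨1, by omega⟩) := by ring
      rw [e2, Left.sign_neg, sign_mul, sign_pos hlt, one_mul]
  apply Set.ncard_le_ncard_of_injOn G
  · intro τ hτ
    obtain ⟨d1, d2, d3⟩ := hdesc τ hτ
    refine ⟨?_, ?_⟩
    · show τ ⟨1, h1n⟩ ∈ ({1, -1} : Set SignType)
      cases h : τ ⟨1, h1n⟩
      · exact absurd h d1
      · right; rfl
      · left; rfl
    · show {l : Fin r | τ ⟨l + 2, by omega⟩ = 0}.ncard = ρ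
      obtain ⟨_, hr, _⟩ := hτ
      rw [← hr]
      set c : {l : Fin r | τ ⟨l + 2, by omega⟩ = 0} → Fin (r + 2) → ℝ :=
        fun l => Pi.single ⟨(l : Fin r) + 2, by omega⟩ 1 with hc
      have hcli : LinearIndependent ℝ c := by
        have h1 := (Pi.basisFun ℝ (Fin (r + 2))).linearIndependent
        have h2 := h1.comp (fun l : {l : Fin r | τ ⟨l + 2, by omega⟩ = 0} =>
          (⟨(l : Fin r) + 2, by omega⟩ : Fin (r + 2))) (by
            intro l l' h
            have h3 := Fin.mk.inj_iff.1 h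
            apply Subtype.ext
            apply Fin.ext
            omega)
        convert! h2 using 1
        funext l
        simp [hc]
      have himg : (fun i : Fin n => np r i) '' {i | τ i = 0} = Set.range c := by
        ext w
        constructor
        · rintro ⟨i, hi, rfl⟩
          have hi0 : τ i = 0 := hi
          have hlt : (i : ℕ) < r + 2 := by
            by_contra hge
            have := d3 i (by omega)
            rw [hi0] at this
            exact d1 (by
              cases h : τ ⟨1, h1n⟩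
              · rfl
              · rw [h] at this; exact absurd this (by decide)
              · rw [h] at this; exact absurd this (by decide))
          have hne0 : (i : ℕ) ≠ 0 := by
            intro h
            have : i = ⟨0, h0n⟩ := Fin.ext h
            rw [this, d2] at hi0
            exact d1 (by
              cases h : τ ⟨1, h1n⟩
              · rfl
              · rw [h] at hi0; exact absurd hi0 (by decide)
              · rw [h] at hi0; exact absurd hi0 (by decide))
          have hne1 : (i : ℕ) ≠ 1 := by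
            intro h
            have : i = ⟨1, h1n⟩ := Fin.ext h
            rw [this] at hi0
            exact d1 hi0
          have hi2 : (i : ℕ) - 2 + 2 = i := by omega
          refine ⟨⟨⟨(i : ℕ) - 2, by omega⟩, ?_⟩, ?_⟩
          · show τ ⟨(i : ℕ) - 2 + 2, _⟩ = 0
            have : (⟨(i : ℕ) - 2 + 2, by omega⟩ : Fin n) = i := Fin.ext hi2
            rw [this]; exact hi0
          · simp only [hc, np, hlt, dif_pos, hi2]
        · rintro ⟨l, rfl⟩
          refine ⟨⟨(l : Fin r) + 2, by omega⟩, l.2, ?_⟩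
          have : ((l : Fin r) : ℕ) + 2 < r + 2 := by omega
          simp only [hc, np, this, dif_pos]
      rw [himg, finrank_span_eq_card hcli, ← Nat.card_coe_set_eq, Nat.card_eq_fintype_card]
  · intro τ hτ τ' hτ' h
    obtain ⟨d1, d2, d3⟩ := hdesc τ hτ
    obtain ⟨d1', d2', d3'⟩ := hdesc τ' hτ'
    have e1 : τ ⟨1, h1n⟩ = τ' ⟨1, h1n⟩ := congrArg Prod.fst h
    have e2 : ∀ l : Fin r, τ ⟨l + 2, by omega⟩ = τ' ⟨l + 2, by omega⟩ :=
      fun l => congrFun (congrArg Prod.snd h) l
    funext i
    by_cases hi : r + 2 ≤ (i : ℕ)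
    · rw [d3 i hi, d3' i hi, e1]
    · by_cases hi0 : (i : ℕ) = 0
      · have : i = ⟨0, h0n⟩ := Fin.ext hi0
        rw [this, d2, d2', e1]
      · by_cases hi1 : (i : ℕ) = 1
        · have : i = ⟨1, h1n⟩ := Fin.ext hi1
          rw [this, e1]
        · have h3 := e2 ⟨(i : ℕ) - 2, by omega⟩
          have h4 : (⟨(i : ℕ) - 2 + 2, by omega⟩ : Fin n) = i := Fin.ext (by simp; omega)
          simp only [h4] at h3
          exact h3

theorem upper_np (r : ℕ) : ∀ n, r + 2 ≤ n → ∀ ρ,
    (faces (fun i : Fin n => np r i) ρ).ncard ≤ LB (r + 2) n ρ := by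
  intro n hn
  induction n, hn using Nat.le_induction with
  | base =>
    intro ρ
    have hli : LinearIndependent ℝ (fun i : Fin (r + 2) => np r i) := by
      have h1 := (Pi.basisFun ℝ (Fin (r + 2))).linearIndependent
      convert! h1 using 1
      funext i
      simp [np]
    rw [ncard_faces_indep _ hli ρ]
    simp [LB]
  | succ n hn IH =>
    intro ρ
    set b : Option (Fin n) → Fin (r + 2) → ℝ := fun o => o.elim (np r n) (fun i => np r i) with hb
    have hab : (fun i : Fin (n + 1) => np r i) = b ∘ (finSuccEquivLast : Fin (n + 1) ≃ Option (Fin n)) := by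
      funext i
      refine Fin.lastCases ?_ (fun j => ?_) i
      · simp [hb]
      · simp [hb]
    rw [hab, ncard_faces_reindex, faces_recursion, LB_succ _ _ _ hn]
    have h1 := IH ρ
    have h2 := cut_np r n ρ hn
    have e1 : (fun i => b (some i)) = (fun i : Fin n => np r i) := rfl
    have e2 : b none = np r n := rfl
    rw [e1, e2]
    have e3 : r + 2 - 2 = r := by omega
    rw [e3]
    by_cases hρ : ρ = 0
    · simp only [hρ, if_true] at *
      omega
    · simp only [hρ, if_false] at *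
      have h3 := cut_np r n (ρ - 1) hn
      omega

end Pool.Agent.H232R2
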